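import Pool.Agent.W423.NX.Defs

set_option autoImplicit false

namespace Pool.Agent.W423.NX.IdxX

open Pool.Agent.W423.NX Pool.Agent.W423.NC Pool.Agent.W423.MG

variable {r N P : ℕ}

lemma zero_mem_Jh (J : Finset (Fin r)) : (0 : Fin (r+1)) ∈ Jh J := by
  unfold Jh; exact Finset.mem_insert_self _ _

lemma succ_mem_Jh (J : Finset (Fin r)) (j : Fin r) : j.succ ∈ Jh J ↔ j ∈ J := by
  unfold Jh
  rw [Finset.mem_insert, Finset.mem_map]
  constructor
  · rintro (h | ⟨a, ha, h⟩)
    · exact absurd h (Fin.succ_ne_zero j)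
    · have h1 : a = j := Fin.succ_injective _ h
      rwa [← h1]
  · intro h
    exact Or.inr ⟨j, h, rfl⟩

lemma Ah_zero (g : Fin r → Fin (P+1)) (v : Fin r → Fin N → ℕ) (m : Fin (P+1) → ℕ) (j : Fin (r+1)) :
    Ax g v m j 0 = -1 := rfl

lemma Ah_succ (g : Fin r → Fin (P+1)) (v : Fin r → Fin N → ℕ) (m : Fin (P+1) → ℕ) (j : Fin (r+1))
    (i : Fin (P+1+N)) : Ax g v m j i.succ = (vx g v m j i : ℤ) := rfl

lemma vh_zero_left (g : Fin r → Fin (P+1)) (v : Fin r → Fin N → ℕ) (m : Fin (P+1) → ℕ) (k : Fin (P+1)) :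
    vx g v m 0 (Fin.castAdd N k) = m k := by
  show Fin.append m (fun _ => 0) (Fin.castAdd N k) = m k
  rw [Fin.append_left]

lemma vh_zero_right (g : Fin r → Fin (P+1)) (v : Fin r → Fin N → ℕ) (m : Fin (P+1) → ℕ) (i : Fin N) :
    vx g v m 0 (Fin.natAdd (P+1) i) = 0 := by
  show Fin.append m (fun _ => 0) (Fin.natAdd (P+1) i) = 0
  rw [Fin.append_right]

lemma vh_succ_left (g : Fin r → Fin (P+1)) (v : Fin r → Fin N → ℕ) (m : Fin (P+1) → ℕ) (j : Fin r)
    (k : Fin (P+1)) : vx g v m j.succ (Fin.castAdd N k) = if g j = k then m k - 1 else m k := by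
  show Fin.append (fun k => if g j = k then m k - 1 else m k) (v j) (Fin.castAdd N k) = _
  rw [Fin.append_left]

lemma vh_succ_right (g : Fin r → Fin (P+1)) (v : Fin r → Fin N → ℕ) (m : Fin (P+1) → ℕ) (j : Fin r)
    (i : Fin N) : vx g v m j.succ (Fin.natAdd (P+1) i) = v j i := by
  show Fin.append (fun k => if g j = k then m k - 1 else m k) (v j) (Fin.natAdd (P+1) i) = _
  rw [Fin.append_right]

lemma sum_zero (g : Fin r → Fin (P+1)) (v : Fin r → Fin N → ℕ) (m : Fin (P+1) → ℕ) (x : Fin (P+1+N+1) → ℤ) :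
    ∑ i, Ax g v m 0 i * x i =
      -x 0 + ∑ k : Fin (P+1), (m k : ℤ) * x (Fin.castAdd N k).succ := by
  rw [Fin.sum_univ_succ, Fin.sum_univ_add]
  simp only [Ah_zero, Ah_succ, vh_zero_left, vh_zero_right]
  simp

lemma sum_succ (g : Fin r → Fin (P+1)) (v : Fin r → Fin N → ℕ) (m : Fin (P+1) → ℕ)
    (hm : ∀ k, 1 ≤ m k) (j : Fin r) (x : Fin (P+1+N+1) → ℤ) :
    ∑ i, Ax g v m j.succ i * x i =
      -x 0 + ∑ k : Fin (P+1), (m k : ℤ) * x (Fin.castAdd N k).succ -
      x (Fin.castAdd N (g j)).succ + ∑ i : Fin N, x (Fin.natAdd (P+1) i).succ * (v j i : ℤ) := by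
  rw [Fin.sum_univ_succ, Fin.sum_univ_add]
  simp only [Ah_zero, Ah_succ, vh_succ_left, vh_succ_right]
  have h1 : ∑ k : Fin (P+1), (((if g j = k then m k - 1 else m k : ℕ) : ℤ)) *
      x (Fin.castAdd N k).succ = ∑ k : Fin (P+1), (m k : ℤ) * x (Fin.castAdd N k).succ -
      x (Fin.castAdd N (g j)).succ := by
    have h2 : x (Fin.castAdd N (g j)).succ =
        ∑ k : Fin (P+1), if g j = k then x (Fin.castAdd N k).succ else 0 := by
      rw [Finset.sum_ite_eq Finset.univ (g j)]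
      simp
    rw [h2, ← Finset.sum_sub_distrib]
    refine Finset.sum_congr rfl fun k _ => ?_
    have hk := hm k
    split_ifs
    · rw [Nat.cast_sub hk]
      push_cast
      ring
    · ring
  rw [h1]
  have h3 : ∑ i : Fin N, (v j i : ℤ) * x (Fin.natAdd (P+1) i).succ =
      ∑ i : Fin N, x (Fin.natAdd (P+1) i).succ * (v j i : ℤ) :=
    Finset.sum_congr rfl fun i _ => mul_comm _ _
  rw [h3]
  ring

/-- the projection -/
def phi (J : Finset (Fin r)) : (Jh J → ℤ) →+ (J → ℤ) where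
  toFun z j := z ⟨j.1.succ, (succ_mem_Jh J j.1).2 j.2⟩ - z ⟨0, zero_mem_Jh J⟩
  map_zero' := by ext j; simp
  map_add' p q := by
    ext j
    simp only [Pi.add_apply]
    ring

lemma phi_surj (J : Finset (Fin r)) : Function.Surjective (phi J) := by
  intro y
  refine ⟨fun j => if h : ∃ i : J, i.1.succ = j.1 then y h.choose else 0, ?_⟩
  ext j
  have h1 : ∃ i : J, i.1.succ = (⟨j.1.succ, (succ_mem_Jh J j.1).2 j.2⟩ : Jh J).1 := ⟨j, rfl⟩
  have h2 : ¬ ∃ i : J, i.1.succ = (⟨0, zero_mem_Jh J⟩ : Jh J).1 := by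
    rintro ⟨i, hi⟩
    exact Fin.succ_ne_zero _ hi
  show (if h : ∃ i : J, i.1.succ = (⟨j.1.succ, (succ_mem_Jh J j.1).2 j.2⟩ : Jh J).1
    then y h.choose else 0) - (if h : ∃ i : J, i.1.succ = (⟨0, zero_mem_Jh J⟩ : Jh J).1
    then y h.choose else 0) = y j
  rw [dif_pos h1, dif_neg h2, sub_zero]
  congr 1
  exact Subtype.ext (Fin.succ_injective _ h1.choose_spec)

lemma phi_ev (g : Fin r → Fin (P+1)) (v : Fin r → Fin N → ℕ) (m : Fin (P+1) → ℕ)
    (hm : ∀ k, 1 ≤ m k) (J : Finset (Fin r))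
    (x : Fin (P+1+N+1) → ℤ) : phi J (evA (Ax g v m) (Jh J) x) =
      evC g v J (fun i => x (Fin.natAdd (P+1) i).succ, fun k => -x (Fin.castAdd N k).succ) := by
  ext j
  show ∑ i, Ax g v m j.1.succ i * x i - ∑ i, Ax g v m 0 i * x i =
    ∑ i : Fin N, x (Fin.natAdd (P+1) i).succ * (v j i : ℤ) + -x (Fin.castAdd N (g j)).succ
  rw [sum_succ g v m hm, sum_zero]
  ring

lemma range_eq (g : Fin r → Fin (P+1)) (v : Fin r → Fin N → ℕ) (m : Fin (P+1) → ℕ)
    (hm : ∀ k, 1 ≤ m k) (J : Finset (Fin r)) :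
    (evA (Ax g v m) (Jh J)).range = (evC g v J).range.comap (phi J) := by
  ext z
  rw [AddSubgroup.mem_comap]
  constructor
  · rintro ⟨x, rfl⟩
    exact ⟨_, (phi_ev g v m hm J x).symm⟩
  · rintro ⟨⟨w, t⟩, h⟩
    refine ⟨Fin.cons (∑ k, (m k : ℤ) * (-t k) - z ⟨0, zero_mem_Jh J⟩) (Fin.append (fun k => -t k) w), ?_⟩
    have h0 : ∑ i, Ax g v m 0 i * (Fin.cons (∑ k, (m k : ℤ) * (-t k) - z ⟨0, zero_mem_Jh J⟩)
        (Fin.append (fun k => -t k) w) : Fin (P+1+N+1) → ℤ) i = z ⟨0, zero_mem_Jh J⟩ := by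
      rw [sum_zero]
      simp only [Fin.cons_zero, Fin.cons_succ, Fin.append_left]
      ring
    have h1 : ∀ j : J, ∑ i, Ax g v m j.1.succ i * (Fin.cons (∑ k, (m k : ℤ) * (-t k) - z ⟨0, zero_mem_Jh J⟩)
        (Fin.append (fun k => -t k) w) : Fin (P+1+N+1) → ℤ) i =
          z ⟨j.1.succ, (succ_mem_Jh J j.1).2 j.2⟩ := by
      intro j
      rw [sum_succ g v m hm]
      simp only [Fin.cons_zero, Fin.cons_succ, Fin.append_left, Fin.append_right]
      have h2 : ∑ i, w i * (v j.1 i : ℤ) + t (g j.1) =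
          z ⟨j.1.succ, (succ_mem_Jh J j.1).2 j.2⟩ - z ⟨0, zero_mem_Jh J⟩ := congrFun h j
      have h3 := eq_sub_iff_add_eq.2 h2
      linarith
    funext jj
    obtain ⟨j, hj⟩ := jj
    show ∑ i, Ax g v m j i * (Fin.cons (∑ k, (m k : ℤ) * (-t k) - z ⟨0, zero_mem_Jh J⟩)
        (Fin.append (fun k => -t k) w) : Fin (P+1+N+1) → ℤ) i = z ⟨j, hj⟩
    rcases Fin.eq_zero_or_eq_succ j with h2 | ⟨j', h2⟩
    · subst h2
      exact h0
    · subst h2
      exact h1 ⟨j', (succ_mem_Jh J j').1 hj⟩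

lemma comb_iff (g : Fin r → Fin (P+1)) (v : Fin r → Fin N → ℕ) (m : Fin (P+1) → ℕ)
    (hm : ∀ k, 1 ≤ m k) (J : Finset (Fin r))
    (l : Fin r) (ch : Fin (r+1) → ℚ) : CombA (Ax g v m) (Jh J) l.succ ch ↔
      ch 0 = 0 ∧ CombC g v J l (fun j => ch j.succ) := by
  have hz : ∑ j, ch j * ((Ax g v m j 0 : ℤ) : ℚ) = -(ch 0 + ∑ j : Fin r, ch j.succ) := by
    simp only [Ah_zero]
    rw [Fin.sum_univ_succ, neg_add, ← Finset.sum_neg_distrib]
    simp
  have hl : ∀ k : Fin (P+1), ∑ j, ch j * ((Ax g v m j (Fin.castAdd N k).succ : ℤ) : ℚ) =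
      (m k : ℚ) * (ch 0 + ∑ j : Fin r, ch j.succ) -
        ∑ j : Fin r, if g j = k then ch j.succ else 0 := by
    intro k
    simp only [Ah_succ]
    rw [Fin.sum_univ_succ]
    simp only [vh_zero_left, vh_succ_left]
    rw [mul_add, add_sub_assoc, Finset.mul_sum, ← Finset.sum_sub_distrib]
    congr 1
    · push_cast
      ring
    · refine Finset.sum_congr rfl fun j _ => ?_
      have hk := hm k
      split_ifs
      · rw [Nat.cast_sub hk]
        push_cast
        ring
      · push_cast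
        ring
  have hr : ∀ i : Fin N, ∑ j, ch j * ((Ax g v m j (Fin.natAdd (P+1) i).succ : ℤ) : ℚ) =
      ∑ j : Fin r, ch j.succ * (v j i : ℚ) := by
    intro i
    simp only [Ah_succ]
    rw [Fin.sum_univ_succ]
    simp only [vh_zero_right, vh_succ_right]
    simp
  have htot : (∑ k, ∑ j, if g j = k then ch (Fin.succ j) else 0) = ∑ j : Fin r, ch j.succ := by
    rw [Finset.sum_comm]
    refine Finset.sum_congr rfl fun j _ => ?_
    rw [Finset.sum_ite_eq Finset.univ (g j)]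
    simp
  have hone : (∑ k, if g l = k then (1:ℚ) else 0) = 1 := by
    rw [Finset.sum_ite_eq Finset.univ (g l)]
    simp
  constructor
  · rintro ⟨h1, h2⟩
    have h3 := h2 0
    rw [hz, Ah_zero] at h3
    have h4 : ch 0 + ∑ j : Fin r, ch j.succ = 1 := by
      push_cast at h3
      linarith
    have h5 : ∀ k : Fin (P+1), (∑ j : Fin r, if g j = k then ch j.succ else 0) =
        if g l = k then 1 else 0 := by
      intro k
      have h6 := h2 (Fin.castAdd N k).succ
      rw [hl, h4, Ah_succ, vh_succ_left] at h6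
      have hk := hm k
      split_ifs at h6 ⊢
      · rw [Nat.cast_sub hk] at h6
        push_cast at h6
        linarith
      · push_cast at h6
        linarith
    have h6 : ∑ j : Fin r, ch j.succ = 1 := by
      rw [← htot, Finset.sum_congr rfl fun k _ => h5 k, hone]
    refine ⟨by linarith, fun j hj => h1 _ (fun h => hj ((succ_mem_Jh J j).1 h)), h5,
      fun i => ?_⟩
    have h7 := h2 (Fin.natAdd (P+1) i).succ
    rw [hr, Ah_succ, vh_succ_right] at h7
    rw [h7]
    simp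
  · rintro ⟨h0, h1, h2, h3⟩
    have h6 : ∑ j : Fin r, ch j.succ = 1 := by
      rw [← htot, Finset.sum_congr rfl fun k _ => h2 k, hone]
    refine ⟨fun j hj => ?_, fun i => ?_⟩
    · rcases Fin.eq_zero_or_eq_succ j with h | ⟨j', h⟩
      · subst h
        exact absurd (zero_mem_Jh J) hj
      · subst h
        exact h1 j' (fun h => hj ((succ_mem_Jh J j').2 h))
    · rcases Fin.eq_zero_or_eq_succ i with h | ⟨i', h⟩
      · subst h
        rw [hz, h0, h6, Ah_zero]
        norm_num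
      · subst h
        refine Fin.addCases (motive := fun i' => ∑ j, ch j * ((Ax g v m j i'.succ : ℤ) : ℚ) =
          ((Ax g v m l.succ i'.succ : ℤ) : ℚ)) (fun k => ?_) (fun i => ?_) i'
        · rw [hl, h0, h6, h2, Ah_succ, vh_succ_left]
          have hk := hm k
          split_ifs
          · rw [Nat.cast_sub hk]
            push_cast
            ring
          · push_cast
            ring
        · rw [hr, h3, Ah_succ, vh_succ_right]
          simp

theorem idx : TaskIdxX := by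
  intro r N P g v m hm J
  constructor
  · unfold idxA idxC
    rw [range_eq g v m hm]
    exact AddSubgroup.index_comap_of_surjective _ (phi_surj J)
  · intro θ θ0
    unfold AdmA AdmC
    constructor
    · intro h l hl c hc
      have h1 := h l.succ (fun h' => hl ((succ_mem_Jh J l).1 h')) (Fin.cons 0 c)
        ((comb_iff g v m hm J l _).2 ⟨rfl, hc⟩)
      rw [Fin.sum_univ_succ] at h1
      simpa using h1
    · intro h lh hlh ch hch
      rcases Fin.eq_zero_or_eq_succ lh with h1 | ⟨l, h1⟩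
      · subst h1
        exact absurd (zero_mem_Jh J) hlh
      · subst h1
        obtain ⟨h2, h3⟩ := (comb_iff g v m hm J l ch).1 hch
        have h4 := h l (fun h' => hlh ((succ_mem_Jh J l).2 h')) _ h3
        rw [Fin.sum_univ_succ, h2]
        simpa using h4

end Pool.Agent.W423.NX.IdxX
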