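import Pool.Agent.W423.NC.Ev1
import Pool.Agent.W425.SL.Defs

set_option autoImplicit false

/-! Very general tuples and products, with arbitrary other coefficients: definitions and the
statements of the parts. -/

namespace Pool.Agent.W423.NX

open MvPolynomial Pool.Agent.H628R4.TZ Pool.Agent.W425.SM
open Pool.Agent.H628R4.TP hiding Sh
open Pool.Agent.W525.SM (Sh)
open Pool.Agent.W423.MG
open Pool.Agent.W423.NC
open Pool.Agent.W372.SG (ed)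
open MeasureTheory Filter Topology

variable {r N P : ℕ}

/-! ### The functional equation -/

/-- `g_k + h_k` -/
noncomputable def polyH {F : Type} [Field F] [Algebra F ℂ] (g : Fin r → Fin (P+1))
    (v : Fin r → Fin N → ℕ) (a : Fin r → ℂ) (h : Fin (P+1) → MvPolynomial (Fin N) F)
    (k : Fin (P+1)) : MvPolynomial (Fin N) ℂ :=
  polyG g v a k + map (algebraMap F ℂ) (h k)

/-- `w` lies in the convex hull (if `loc` holds: in the convex hull plus the positive orthant) of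
the exponents of the group `k`. -/
def HullG (loc : Prop) (g : Fin r → Fin (P+1)) (v : Fin r → Fin N → ℕ) (k : Fin (P+1))
    (w : Fin N →₀ ℕ) : Prop :=
  ∃ l : Fin r → ℝ, (∀ j, 0 ≤ l j) ∧ (∀ j, g j ≠ k → l j = 0) ∧ ∑ j, l j = 1 ∧
    (∀ i, ∑ j, l j * (v j i : ℝ) ≤ (w i : ℝ)) ∧
    (¬ loc → ∀ i, ∑ j, l j * (v j i : ℝ) = (w i : ℝ))

/-- The functional equation `b(s) A ∏ G_k ^ s_k = D(s) ∏ G_k ^ (s_k + m_k)` for all `s` of a set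
`E`, with a unit `A` at the origin (`A = 1` if not `loc`). -/
def FEq (loc : Prop) (G : Fin (P+1) → MvPolynomial (Fin N) ℂ) (m : Fin (P+1) → ℕ)
    (E : Set (Fin (P+1) → ℕ)) (bs : (Fin (P+1) → ℕ) → ℂ) : Prop :=
  ∃ (A : MvPolynomial (Fin N) ℂ) (D : (Fin (P+1) →₀ ℕ) →₀ weyl N),
    constantCoeff A = 1 ∧ (¬ loc → A = 1) ∧ ∀ s ∈ E,
      C (bs s) * (A * ∏ k, G k ^ s k) =
        D.sum fun β Q => (∏ k, (s k : ℂ) ^ β k) •
          (Q : Module.End ℂ (MvPolynomial (Fin N) ℂ)) (∏ k, G k ^ (s k + m k))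

/-- The generic polynomial `∑_{g j = k} y_j x ^ (v j) + h_k` with coefficients in `F[y]`. -/
noncomputable def genX {F : Type} [Field F] (g : Fin r → Fin (P+1)) (v : Fin r → Fin N → ℕ)
    (h : Fin (P+1) → MvPolynomial (Fin N) F) (k : Fin (P+1)) :
    MvPolynomial (Fin N) (MvPolynomial (Fin r) F) :=
  (∑ j, if g j = k then C (X j) * ∏ i, X i ^ v j i else 0) + map C (h k)

/-- The functional equation over `F[y]`, coefficient by coefficient. -/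
def GenEqX {F : Type} [Field F] (loc : Prop) (g : Fin r → Fin (P+1)) (v : Fin r → Fin N → ℕ)
    (h : Fin (P+1) → MvPolynomial (Fin N) F) (m : Fin (P+1) → ℕ) (E : Set (Fin (P+1) → ℕ))
    (bs : (Fin (P+1) → ℕ) → F) : Prop :=
  ∃ (A : MvPolynomial (Fin N) (MvPolynomial (Fin r) F)) (D : Finset (Fin N → ℤ))
    (T : Finset (Fin (P+1) →₀ ℕ))
    (Q : (Fin (P+1) →₀ ℕ) → (Fin N → ℤ) → MvPolynomial (Fin N) (MvPolynomial (Fin r) F)),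
    coeff 0 A ≠ 0 ∧ (¬ loc → ∀ γ, γ ≠ 0 → coeff γ A = 0) ∧
    ∀ s ∈ E, ∀ e : Fin N →₀ ℕ,
      C (bs s) * coeff e (A * ∏ k, genX g v h k ^ s k) =
        ∑ β ∈ T, C (∏ k, (s k : F) ^ β k) * ∑ δ ∈ D, if ∀ i, 0 ≤ (e i : ℤ) + δ i then
          eval (fun i => C ((((e i : ℤ) + δ i : ℤ)) : F)) (Q β δ) *
          C (∏ i, ((((e i : ℤ) + δ i).toNat.descFactorial (δ i).toNat : ℕ) : F)) *
          coeff (ed e δ) (∏ k, genX g v h k ^ (s k + m k)) else 0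

/-- Descent from `ℂ` to `F[y]`. -/
def TaskDesc : Prop := ∀ {r N P : ℕ} {F : Type} [Field F] [Algebra F ℂ] (loc : Prop)
  (g : Fin r → Fin (P+1)) (v : Fin r → Fin N → ℕ) (h : Fin (P+1) → MvPolynomial (Fin N) F)
  (a : Fin r → ℂ) (m : Fin (P+1) → ℕ) (E : Set (Fin (P+1) → ℕ)) (bs : (Fin (P+1) → ℕ) → F),
  AlgebraicIndependent F a → FEq loc (polyH g v a h) m E (fun s => algebraMap F ℂ (bs s)) →
  GenEqX loc g v h m E bs

/-! ### The numerical relation -/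

/-- The terms with group sums `m_k`. -/
def Kd1 (g : Fin r → Fin (P+1)) (v : Fin r → Fin N → ℕ) (m : Fin (P+1) → ℕ) (c : Fin r → ℤ)
    (B : Finset (Fin N)) : Prop :=
  ∃ l : Fin r → ℝ, (∀ j, 0 ≤ l j) ∧ (∀ k, gs g (fun j => (c j : ℝ) + l j) k = (m k : ℝ)) ∧
    ∀ i, i ∉ B → ∑ j, ((c j : ℝ) + l j) * (v j i : ℝ) ≤ 0

/-- The terms with group sums `0`. -/
def Kd0 (g : Fin r → Fin (P+1)) (v : Fin r → Fin N → ℕ) (θ : Fin r → ℝ) (loc : Prop)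
    (c : Fin r → ℤ) : Prop :=
  ((∀ k, gs g c k = 0) ∧ (∀ i, Sh v c i = 0) ∧ 0 < ∑ j, (c j : ℝ) * θ j) ∨
  (loc ∧ ∃ l : Fin r → ℝ, (∀ j, 0 ≤ l j) ∧ (∀ k, gs g (fun j => (c j : ℝ) + l j) k = 0) ∧
    (∀ i, ∑ j, ((c j : ℝ) + l j) * (v j i : ℝ) ≤ 0) ∧
    ∃ i, ∑ j, ((c j : ℝ) + l j) * (v j i : ℝ) < 0)

/-- The relation at all `u ∈ ℕ ^ r` whose group sums are in `E`. -/
def NumRel (loc : Prop) (g : Fin r → Fin (P+1)) (v : Fin r → Fin N → ℕ) (θ : Fin r → ℝ)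
    (m : Fin (P+1) → ℕ) (E : Set (Fin (P+1) → ℕ)) (bs : (Fin (P+1) → ℕ) → ℂ) : Prop :=
  ∃ (M n n0 : ℕ) (c : Fin n → Fin r → ℤ) (B : Fin n → Finset (Fin N))
    (q : Fin n → MvPolynomial (Fin r) ℂ) (c0 : Fin n0 → Fin r → ℤ)
    (q0 : Fin n0 → MvPolynomial (Fin r) ℂ),
    1 ≤ M ∧ (∀ t, Kd1 g v m (c t) (B t)) ∧ (∀ t, Kd0 g v θ loc (c0 t)) ∧
    (∀ t, (∏ j ∈ Finset.univ.filter (fun j => c0 t j = 0), dm M j) ∣ q0 t) ∧
    ∀ u : Fin r → ℕ, gs g u ∈ E →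
      bs (gs g u) * eval (fun j => (u j : ℂ)) (∏ j, dm M j +
          ∑ t, (∏ j, if c0 t j < 0 then X j * dm M j else 1) * q0 t) =
        (∏ k, ∏ i ∈ Finset.range (m k), (((gs g u k : ℕ) : ℂ) + i + 1)) *
          eval (fun j => (u j : ℂ)) (∑ t, (∏ i ∈ B t, el v i) *
            ((∏ j, if c t j < 0 then X j * dm M j else 1) * q t))

/-- Comparison of the coefficients of `x ^ (∑ u_j v_j) y ^ (u + μ)`. -/
def TaskNum : Prop := ∀ {r N P : ℕ} {F : Type} [Field F] [Algebra F ℂ] (loc : Prop)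
  (g : Fin r → Fin (P+1)) (v : Fin r → Fin N → ℕ) (h : Fin (P+1) → MvPolynomial (Fin N) F)
  (m : Fin (P+1) → ℕ) (E : Set (Fin (P+1) → ℕ)) (bs : (Fin (P+1) → ℕ) → F) (θ : Fin r → ℝ),
  LinearIndependent ℚ θ → (∀ k, ∀ w ∈ (h k).support, HullG loc g v k w) →
  GenEqX loc g v h m E bs → NumRel loc g v θ m E (fun s => algebraMap F ℂ (bs s))

/-! ### The machine -/

/-- The condition which makes a term vanish. -/
def KillC (v : Fin r → Fin N → ℕ) (θ : Fin r → ℝ) (α : Fin N → ℝ) (c : Fin r → ℤ)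
    (B : Finset (Fin N)) : Prop :=
  ∃ l : Fin r → ℝ, (∀ j, 0 ≤ l j) ∧
    (∀ i, i ∉ B → ∑ j, ((c j : ℝ) + l j) * (v j i : ℝ) ≤ 0) ∧
    (∑ j, ((c j : ℝ) + l j) = 1 ∨ (∑ j, ((c j : ℝ) + l j) = 0 ∧
      (0 < ∑ i, α i * ∑ j, ((c j : ℝ) + l j) * (v j i : ℝ) ∨
        (∑ i, α i * ∑ j, ((c j : ℝ) + l j) * (v j i : ℝ) = 0 ∧
          0 < ∑ j, ((c j : ℝ) + l j) * θ j))))

/-- The relation. -/
def RelX (v : Fin r → Fin N → ℕ) (w : Fin N → ℝ) (θ : Fin r → ℝ) (α : Fin N → ℝ)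
    (e W : MvPolynomial (Fin r) ℂ) : Prop :=
  ∃ (M n : ℕ) (c : Fin n → Fin r → ℤ) (B : Fin n → Finset (Fin N))
    (q : Fin n → MvPolynomial (Fin r) ℂ),
    (∀ t, KillC v θ α (c t) (B t)) ∧
    W * ∏ j, dm M j = ∑ t, (∏ i ∈ B t, elW v w i) *
      ((∏ j, if c t j < 0 then X j * dm M j else 1) * (e * q t))

/-- **The functional kills `k * W`.** -/
def TaskKillX : Prop := ∀ {r N : ℕ} (v : Fin r → Fin N → ℕ) (w : Fin N → ℝ), (∀ i, 0 < w i) →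
  ∀ (θ : Fin r → ℝ) (α : Fin N → ℝ) (e W k : MvPolynomial (Fin r) ℂ), RelX v w θ α e W →
  (∀ (κ : Fin r → ℕ) (i : Fin N), ((∑ j, κ j * v j i : ℕ) : ℝ) = w i →
    k * e ∈ Ideal.span {p : MvPolynomial (Fin r) ℂ | ∃ j, 0 < v j i ∧
      p = X j + C ((κ j : ℕ) : ℂ)}) →
  ∃ K0 s0 : ℝ, 0 ≤ K0 ∧ 0 < s0 ∧ ∀ ε > 0, ∀ ϑ > 0, ε * K0 < ϑ →
    ∀ δ > 0, (ε + ϑ) * K0 < δ → ∀ T : ℝ, (ε + δ + ϑ) * K0 < T → ∀ s : ℝ, s0 ≤ s →
    Φ (ph ε) ∅ (lmw s w) (av v) (yW v θ α T δ ϑ) (k * W) = 0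

/-! ### The extended system with multiplicities -/

/-- the exponents of the extended system -/
def vx (g : Fin r → Fin (P+1)) (v : Fin r → Fin N → ℕ) (m : Fin (P+1) → ℕ) :
    Fin (r+1) → Fin (P+1+N) → ℕ :=
  Fin.cons (Fin.append m (fun _ => 0))
    (fun j => Fin.append (fun k => if g j = k then m k - 1 else m k) (v j))

/-- the direction of the translation -/
noncomputable def ax (α0 αx : ℝ) : Fin (P+1+N) → ℝ := Fin.append (fun _ => α0) (fun _ => αx)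

/-- The strong relation of tuples (`m = 1`). -/
def TaskRelT : Prop := ∀ {r N P : ℕ} (g : Fin r → Fin (P+1)) (v : Fin r → Fin N → ℕ)
  (θ : Fin r → ℝ) (b : MvPolynomial (Fin (P+1)) ℂ), (∀ k, ∃ j, g j = k) →
  (∀ j j', g j = g j' → v j = v j' → j = j') →
  NumRel False g v θ (fun _ => 1) Set.univ (fun s => eval (fun k => (s k : ℂ)) b) →
  ∃ p : MvPolynomial (Fin (P+1)) ℂ, b = E2 g * p ∧
    ∀ (θ0 : ℝ) (η : Fin (P+1) → ℝ) (α : Fin (P+1+N) → ℝ),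
      RelX (vx g v (fun _ => 1)) (wh η) (Fin.cons θ0 θ) α (rn (E1 g)) (X 0 * rn (bts g p))

/-- The ideal of the variety `S_k = m_k (X_0 + ∑ X_j + η)`. -/
def TaskMod : Prop := ∀ {r P : ℕ} (g : Fin r → Fin (P+1)) (m : Fin (P+1) → ℕ) (η : ℝ)
  (G : MvPolynomial (Fin (r+1)) ℂ), (∀ k, ∃ j, g j = k) → (∀ k, 1 ≤ m k) →
  (∀ (n : ℕ) (u : Fin r → ℕ), (∀ k, gs g u k = m k * n) →
    eval (Fin.cons ((n : ℂ) - (η : ℂ) - ∑ j, (u j : ℂ)) (fun j => (u j : ℂ)) : Fin (r+1) → ℂ)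
      G = 0) →
  G ∈ Ideal.span (Set.range fun k => rn (sgm g k) - C ((m k : ℕ) : ℂ) * (Sg r + C (η : ℂ)))

/-- Rising factorials of group sums. -/
def TaskRise : Prop := ∀ {r P : ℕ} (g : Fin r → Fin (P+1)) (k : Fin (P+1)) (M : ℕ),
  ∏ i ∈ Finset.range (r * M + 1), (sgm g k + C (i : ℂ)) ∈
    Ideal.span {p : MvPolynomial (Fin r) ℂ | ∃ j, g j = k ∧ p = X j * dm M j}

/-- `∏_k ∏_{i < n} (S_k + i)` -/
noncomputable def rise (g : Fin r → Fin (P+1)) (n : ℕ) : MvPolynomial (Fin r) ℂ :=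
  ∏ k, ∏ i ∈ Finset.range n, (sgm g k + C (i : ℂ))

/-- The weak relation of products `∏ g_k ^ m_k`. -/
def TaskRelP : Prop := ∀ {r N P : ℕ} (loc : Prop) (g : Fin r → Fin (P+1))
  (v : Fin r → Fin N → ℕ) (θ : Fin r → ℝ) (m : Fin (P+1) → ℕ) (bs : (Fin (P+1) → ℕ) → ℂ)
  (b : Polynomial ℂ), (∀ k, ∃ j, g j = k) → (∀ k, 1 ≤ m k) →
  (∀ n : ℕ, bs (fun k => m k * n) = b.eval (n : ℂ)) →
  NumRel loc g v θ m {s | ∃ n : ℕ, s = fun k => m k * n} bs →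
  ∃ n1 : ℕ, 2 ≤ n1 ∧ ∀ (θ0 η α0 αx : ℝ), 0 < η → (loc → αx < 0) →
    (∀ j, αx * ∑ i, (v j i : ℝ) < α0) →
    RelX (vx g v m) (wh fun k => η * (m k : ℝ)) (Fin.cons θ0 θ) (ax α0 αx) 1
      (X 0 * (rn (rise g n1) * Polynomial.aeval (Sg r + C (η : ℂ)) b))

/-- The property of the kernel in the extended system with multiplicities. -/
def TaskKerX : Prop := ∀ {r N P : ℕ} (g : Fin r → Fin (P+1)) (v : Fin r → Fin N → ℕ)
  (m : Fin (P+1) → ℕ) (η : Fin (P+1) → ℝ), (∀ k, 0 < η k ∧ η k < 1) →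
  ∀ (κ : Fin (r+1) → ℕ) (i : Fin (P+1+N)),
  ((∑ j, κ j * vx g v m j i : ℕ) : ℝ) = wh (N := N) η i →
    rn (kerN g v) * rn (E1 g) ∈ Ideal.span {p : MvPolynomial (Fin (r+1)) ℂ |
      ∃ j, 0 < vx g v m j i ∧ p = X j + C ((κ j : ℕ) : ℂ)}

/-! ### The limit -/

/-- the matrix of the forms -/
def Ax (g : Fin r → Fin (P+1)) (v : Fin r → Fin N → ℕ) (m : Fin (P+1) → ℕ) :
    Fin (r+1) → Fin (P+1+N+1) → ℤ :=
  fun j => Fin.cons (-1) (fun i => (vx g v m j i : ℤ))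

/-- the direction of the translation -/
noncomputable def bx (K α0 αx : ℝ) : Fin (P+1+N+1) → ℝ := Fin.cons (-K) (ax α0 αx)

/-- the value of the linear form of `ρ` at `m s + η` -/
noncomputable def kX (g : Fin r → Fin (P+1)) (v : Fin r → Fin N → ℕ) (m : Fin (P+1) → ℕ)
    (η : Fin (P+1) → ℝ) (s : ℝ) (ρ : Fin N → ℕ) : ℝ :=
  ∑ k, (ordG g v k ρ : ℝ) * ((m k : ℝ) * s + η k) + ((∑ l, ρ l : ℕ) : ℝ)

/-- the limit for `J` -/
noncomputable def limX (g : Fin r → Fin (P+1)) (v : Fin r → Fin N → ℕ) (θ : Fin r → ℝ)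
    (R : SmoothFan N) (m : Fin (P+1) → ℕ) (η : Fin (P+1) → ℝ) (αx : ℝ) (J : Finset (Fin r))
    (s : ℝ) : ℂ :=
  open Classical in
  ∑ σ ∈ R.cones, if J ⊆ minSetG g v σ ∧ σ.card + J.card = P + N + 1 ∧
      (∃ ρ ∈ σ, ∃ k, ordG g v k ρ ≠ 0) ∧ Inc αx σ ∧ AdmC g v θ J then
    (idxC g v J : ℂ)⁻¹ * ∏ ρ ∈ σ, ((kX g v m η s ρ : ℝ) : ℂ)⁻¹ else 0

/-- The index and the admissibility. -/
def TaskIdxX : Prop := ∀ {r N P : ℕ} (g : Fin r → Fin (P+1)) (v : Fin r → Fin N → ℕ)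
  (m : Fin (P+1) → ℕ), (∀ k, 1 ≤ m k) →
  ∀ (J : Finset (Fin r)), idxA (Ax g v m) (Jh J) = idxC g v J ∧
    ∀ (θ : Fin r → ℝ) (θ0 : ℝ), AdmA (Ax g v m) (Fin.cons θ0 θ) (Jh J) ↔ AdmC g v θ J

/-- The limit. -/
def TaskLimX : Prop := ∀ {r N P : ℕ} (g : Fin r → Fin (P+1)) (v : Fin r → Fin N → ℕ)
  (θ : Fin r → ℝ) (θ0 : ℝ), LinearIndependent ℚ (Fin.cons θ0 θ : Fin (r+1) → ℝ) →
  (∀ k, ∃ j, g j = k) → ∀ (R : SmoothFan N), PrincipalG g v R →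
  ∀ (m : Fin (P+1) → ℕ), (∀ k, 1 ≤ m k) →
  ∀ (η : Fin (P+1) → ℝ), (∀ k, 0 < η k) → ∀ (J : Finset (Fin r)), idxC g v J ≠ 0 →
  (∀ k, ∃ j ∈ J, g j = k) → ∀ K : ℝ, 0 < K → ∀ α0 : ℝ, 0 < α0 → ∀ αx : ℝ, αx ≠ 0 →
  ∀ s : ℝ, 0 < s →
  Tendsto (fun l : ℕ => ∫ x, integA (Ax g v m) (Fin.cons θ0 θ) (lmw s (wh η)) (bx K α0 αx)
      (Jh J) l x ∂(Measure.pi (ms (∅ : Finset (Fin (P+1+N+1)))))) atTop
      (𝓝 (limX g v θ R m η αx J s))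

/-! ### The zeta function of a product -/

/-- The topological zeta function of `∏ g_k ^ m_k` (global, or local at the origin if `loc`),
computed on the toric resolution given by `R`. -/
noncomputable def topZetaP (loc : Prop) (g : Fin r → Fin (P+1)) (v : Fin r → Fin N → ℕ)
    (θ : Fin r → ℝ) (m : Fin (P+1) → ℕ) (R : SmoothFan N) : RatFunc ℂ :=
  open Classical in
  ∑ σ ∈ R.cones.filter (fun σ => loc → ∀ l, ∃ ρ ∈ σ, ρ l ≠ 0),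
    (∑ K : Finset (Fin (P+1)), ((chiStrG g v θ σ K : ℤ) : RatFunc ℂ) *
        ∏ k ∈ K, ((m k : RatFunc ℂ) * RatFunc.X + 1)⁻¹) *
    ∏ ρ ∈ σ, (((∑ k, m k * ordG g v k ρ : ℕ) : RatFunc ℂ) * RatFunc.X +
      ((∑ l, ρ l : ℕ) : RatFunc ℂ))⁻¹

/-- the limit for `J`, on the line `s_k = m_k s` -/
noncomputable def limP (g : Fin r → Fin (P+1)) (v : Fin r → Fin N → ℕ) (θ : Fin r → ℝ)
    (R : SmoothFan N) (m : Fin (P+1) → ℕ) (αx : ℝ) (J : Finset (Fin r)) (s : ℝ) : ℂ :=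
  open Classical in
  ∑ σ ∈ R.cones, if J ⊆ minSetG g v σ ∧ σ.card + J.card = P + N + 1 ∧
      (∃ ρ ∈ σ, ∃ k, ordG g v k ρ ≠ 0) ∧ Inc αx σ ∧ AdmC g v θ J then
    (idxC g v J : ℂ)⁻¹ * ∏ ρ ∈ σ,
      (((∑ k, m k * ordG g v k ρ : ℕ) : ℂ) * (s : ℂ) + ((∑ l, ρ l : ℕ) : ℂ))⁻¹ else 0

/-- From the line to the zeta function. -/
def TaskZetaP : Prop := ∀ {r N P : ℕ} (loc : Prop) (g : Fin r → Fin (P+1))
  (v : Fin r → Fin N → ℕ) (θ : Fin r → ℝ), (∀ k, ∃ j, g j = k) → ∀ (R : SmoothFan N)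
  (m : Fin (P+1) → ℕ), (∀ k, 1 ≤ m k) → ∀ (αx : ℝ), αx ≠ 0 → (αx < 0 ↔ loc) →
  ∀ (p Q : Polynomial ℂ) (s1 : ℝ),
  (∀ s : ℝ, s1 ≤ s → p.eval (s : ℂ) *
      ∑ J ∈ Finset.univ.filter (fun J : Finset (Fin r) => ∀ k, ∃ j ∈ J, g j = k),
        (-1) ^ J.card * (idxC g v J : ℂ) ^ 2 * eval (fun k => (m k : ℂ) * (s : ℂ)) (hJ g J) *
          limP g v θ R m αx J s = Q.eval (s : ℂ)) →
  ∃ Z : Polynomial ℂ,
    algebraMap (Polynomial ℂ) (RatFunc ℂ) (p * ∏ k : Fin (P+1),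
      (Polynomial.C ((m k : ℕ) : ℂ) * Polynomial.X + 1)) * topZetaP loc g v θ m R =
      algebraMap (Polynomial ℂ) (RatFunc ℂ) Z

/-! ### Diagonal changes of variables -/

/-- `x_l ↦ t_l x_l` -/
noncomputable def scal (t : Fin N → ℂ) : MvPolynomial (Fin N) ℂ →ₐ[ℂ] MvPolynomial (Fin N) ℂ :=
  aeval (fun l => C (t l) * X l)

/-- Tuples, diagonal changes of variables and constants. -/
def TaskScale : Prop := ∀ {N P : ℕ} (f G : Fin (P+1) → MvPolynomial (Fin N) ℂ)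
  (c : Fin (P+1) → ℂ) (t : Fin N → ℂ), (∀ k, c k ≠ 0) → (∀ l, t l ≠ 0) →
  (∀ k, C (c k) * scal t (f k) = G k) →
  ∀ b : MvPolynomial (Fin (P+1)) ℂ, InBSIdealT f b →
    FEq False G (fun _ => 1) Set.univ (fun s => eval (fun k => (s k : ℂ)) b)

/-- Products, global functional equation. -/
def TaskFromB : Prop := ∀ {N P : ℕ} (f : MvPolynomial (Fin N) ℂ)
  (G : Fin (P+1) → MvPolynomial (Fin N) ℂ) (m : Fin (P+1) → ℕ) (c : ℂ) (t : Fin N → ℂ),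
  (∀ k, 1 ≤ m k) → c ≠ 0 → (∀ l, t l ≠ 0) → C c * scal t f = ∏ k, G k ^ m k →
  ∀ b : Polynomial ℂ, IsBFunction f b → ∀ bs : (Fin (P+1) → ℕ) → ℂ,
    (∀ n : ℕ, bs (fun k => m k * n) = b.eval (n : ℂ)) →
    FEq False G m {s | ∃ n : ℕ, s = fun k => m k * n} bs

/-- Products, local functional equation. -/
def TaskFromL : Prop := ∀ {N P : ℕ} (f : MvPolynomial (Fin N) ℂ)
  (G : Fin (P+1) → MvPolynomial (Fin N) ℂ) (m : Fin (P+1) → ℕ) (c : ℂ) (t : Fin N → ℂ),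
  (∀ k, 1 ≤ m k) → c ≠ 0 → (∀ l, t l ≠ 0) → C c * scal t f = ∏ k, G k ^ m k →
  f ≠ 0 → constantCoeff f = 0 →
  ∀ b : Polynomial ℂ, Pool.Agent.W425.SL.IsLocalBFunction f b →
    ∀ bs : (Fin (P+1) → ℕ) → ℂ,
    (∀ n : ℕ, bs (fun k => m k * n) = b.eval (n : ℂ)) →
    FEq True G m {s | ∃ n : ℕ, s = fun k => m k * n} bs

end Pool.Agent.W423.NX
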