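import Pool.Agent.W423.NX.Fin
import Pool.Agent.W423.NX.IdxX
import Pool.Agent.W688.NX.KILL
import Pool.Agent.W688.NX.DESC
import Pool.Agent.W959.NX.Num
import Pool.Agent.W880.NX.RelP
import Pool.Agent.W853.NX.Mod
import Pool.Agent.W503.NX.Rise
import Pool.Agent.W177.NX.KerX
import Pool.Agent.W253.NC.Ker2
import Pool.Agent.W310.NX.Lim
import Pool.Agent.W806.NX.ZetaP
import Pool.Agent.W407.NX.Scale
import Pool.Agent.W422.GC.Up

set_option autoImplicit false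

/-! The theorems for products with multiplicities. -/

namespace Pool.Agent.W423.NX

open MvPolynomial Pool.Agent.H628R4.TZ Pool.Agent.W425.SM
open Pool.Agent.H628R4.TP (IsBFunction)
open Pool.Agent.W423.MG
open Pool.Agent.W423.NC
open Pool.Agent.W422.GC (AC exists_min lift_AC indep_AC)

variable {r N P : ℕ}

/-- Core: from a functional equation with a unit of `S`. -/
theorem prodC {F : Type} [Field F] [Algebra F ℂ] (loc : Prop)
    (S : Submonoid (MvPolynomial (Fin N) ℂ))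
    (hS : ∀ u ∈ S, constantCoeff u = 1 ∧ (¬ loc → u = 1))
    (g : Fin r → Fin (P+1)) (v : Fin r → Fin N → ℕ) (a : Fin r → ℂ)
    (h : Fin (P+1) → MvPolynomial (Fin N) F) (m : Fin (P+1) → ℕ) (hm : ∀ k, 1 ≤ m k)
    (hg : ∀ k, ∃ j, g j = k)
    (ha : AlgebraicIndependent F a) (hh : ∀ k, ∀ w ∈ (h k).support, HullG loc g v k w)
    (f : MvPolynomial (Fin N) ℂ) (c : ℂ) (t : Fin N → ℂ) (hc : c ≠ 0) (ht : ∀ l, t l ≠ 0)
    (hf : C c * scal t f = ∏ k, polyH g v a h k ^ m k)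
    (θ : Fin r → ℝ) (hθ : LinearIndependent ℚ θ) (R : SmoothFan N) (hR : PrincipalG g v R)
    (b : Polynomial ℂ) (hb : Pool.Agent.W591.GC.J S f 1 b) :
    ∃ (n : ℕ) (Z : Polynomial ℂ),
      algebraMap (Polynomial ℂ) (RatFunc ℂ) (b *
        (∏ k : Fin (P+1), ∏ i ∈ Finset.range n,
          (Polynomial.C ((m k : ℕ) : ℂ) * Polynomial.X + Polynomial.C (i : ℂ))) ^ 3) *
        topZetaP loc g v θ m R = algebraMap (Polynomial ℂ) (RatFunc ℂ) Z := by
  by_cases hb0 : b = 0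
  · exact ⟨0, 0, by rw [hb0, zero_mul, map_zero, zero_mul]⟩
  obtain ⟨b0, hm0, h1, h2, h3⟩ := exists_min S f b hb0 hb
  obtain ⟨q, hq⟩ := h2
  obtain ⟨b', hb'⟩ := lift_AC F b0 h3
  obtain ⟨u, hu, Q, hQ⟩ := (Pool.Agent.W591.GC.J_iff S f b0).1 h1
  have hmap : polyH g v a (fun k => MvPolynomial.map (algebraMap F (AC F)) (h k)) =
      polyH g v a h := by
    funext k
    unfold polyH
    rw [MvPolynomial.map_map, ← IsScalarTower.algebraMap_eq]
  obtain ⟨n, Z, hZ⟩ := mainP_of Pool.Agent.W688.NX.taskDesc Pool.Agent.W959.NX.taskNum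
    (Pool.Agent.W880.NX.relP_of Pool.Agent.W853.NX.taskMod Pool.Agent.W503.NX.rise_mem)
    Pool.Agent.W688.NX.taskKillX Pool.Agent.W177.NX.taskKerX Pool.Agent.W253.NC.ker2
    (Pool.Agent.W310.NX.limX_of Pool.Agent.W423.NX.IdxX.idx) Pool.Agent.W806.NX.taskZetaP
    (F := AC F) loc g v a (fun k => MvPolynomial.map (algebraMap F (AC F)) (h k)) m hm hg
    (indep_AC F a ha)
    (fun k w hw => hh k w (MvPolynomial.support_map_subset _ _ hw)) θ hθ R hR b' (by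
      intro bs hbs
      rw [hb'] at hbs
      obtain ⟨D, hD⟩ := Pool.Agent.W407.NX.fromU f (polyH g v a h) m c t hm hc ht hf b0 u Q
        (fun s => by rw [← hQ s]; ring) bs hbs
      rw [hmap]
      refine ⟨_, D, ?_, ?_, hD⟩
      · rw [Pool.Agent.W407.NX.cc_sc, (hS u hu).1]
      · intro hl
        rw [(hS u hu).2 hl, map_one])
  refine ⟨n, Z * q, ?_⟩
  rw [hb'] at hZ
  rw [map_mul _ Z q, ← hZ, hq, mul_right_comm b0 q, map_mul _ _ q]
  ring

/-- **Products, global.** -/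
theorem prodGlobal {F : Type} [Field F] [Algebra F ℂ]
    (g : Fin r → Fin (P+1)) (v : Fin r → Fin N → ℕ) (a : Fin r → ℂ)
    (h : Fin (P+1) → MvPolynomial (Fin N) F) (m : Fin (P+1) → ℕ) (hm : ∀ k, 1 ≤ m k)
    (hg : ∀ k, ∃ j, g j = k)
    (ha : AlgebraicIndependent F a) (hh : ∀ k, ∀ w ∈ (h k).support, HullG False g v k w)
    (f : MvPolynomial (Fin N) ℂ) (c : ℂ) (t : Fin N → ℂ) (hc : c ≠ 0) (ht : ∀ l, t l ≠ 0)
    (hf : C c * scal t f = ∏ k, polyH g v a h k ^ m k)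
    (θ : Fin r → ℝ) (hθ : LinearIndependent ℚ θ) (R : SmoothFan N) (hR : PrincipalG g v R)
    (b : Polynomial ℂ) (hb : IsBFunction f b) :
    ∃ (n : ℕ) (Z : Polynomial ℂ),
      algebraMap (Polynomial ℂ) (RatFunc ℂ) (b *
        (∏ k : Fin (P+1), ∏ i ∈ Finset.range n,
          (Polynomial.C ((m k : ℕ) : ℂ) * Polynomial.X + Polynomial.C (i : ℂ))) ^ 3) *
        topZetaP False g v θ m R = algebraMap (Polynomial ℂ) (RatFunc ℂ) Z :=
  prodC False ⊥ (fun u hu => by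
    rw [Submonoid.mem_bot] at hu
    exact ⟨by rw [hu, map_one], fun _ => hu⟩) g v a h m hm hg ha hh f c t hc ht hf θ hθ R hR b
    ((Pool.Agent.W591.GC.J_bot _ b).2 hb)

/-- **Products, local.** -/
theorem prodLocal {F : Type} [Field F] [Algebra F ℂ]
    (g : Fin r → Fin (P+1)) (v : Fin r → Fin N → ℕ) (a : Fin r → ℂ)
    (h : Fin (P+1) → MvPolynomial (Fin N) F) (m : Fin (P+1) → ℕ) (hm : ∀ k, 1 ≤ m k)
    (hg : ∀ k, ∃ j, g j = k)
    (ha : AlgebraicIndependent F a) (hh : ∀ k, ∀ w ∈ (h k).support, HullG True g v k w)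
    (f : MvPolynomial (Fin N) ℂ) (c : ℂ) (t : Fin N → ℂ) (hc : c ≠ 0) (ht : ∀ l, t l ≠ 0)
    (hf : C c * scal t f = ∏ k, polyH g v a h k ^ m k) (hf0 : f ≠ 0)
    (hfc : constantCoeff f = 0)
    (θ : Fin r → ℝ) (hθ : LinearIndependent ℚ θ) (R : SmoothFan N) (hR : PrincipalG g v R)
    (b : Polynomial ℂ) (hb : Pool.Agent.H628R4.TP.IsLocalBFunction f b) :
    ∃ (n : ℕ) (Z : Polynomial ℂ),
      algebraMap (Polynomial ℂ) (RatFunc ℂ) (b *
        (∏ k : Fin (P+1), ∏ i ∈ Finset.range n,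
          (Polynomial.C ((m k : ℕ) : ℂ) * Polynomial.X + Polynomial.C (i : ℂ))) ^ 3) *
        topZetaP True g v θ m R = algebraMap (Polynomial ℂ) (RatFunc ℂ) Z := by
  obtain ⟨_, u, Q, hu, hQ⟩ := Pool.Agent.W368.SL.taskL1 f b hf0 hfc
    (Pool.Agent.W425.SL.toSL hb)
  exact prodC True (Pool.Agent.W591.GC.S1 N) (fun u hu => ⟨Pool.Agent.W591.GC.mem_S1.1 hu,
    fun h => absurd trivial h⟩) g v a h m hm hg ha hh f c t hc ht hf θ hθ R hR b
    ((Pool.Agent.W591.GC.J_iff _ _ b).2 ⟨u, Pool.Agent.W591.GC.mem_S1.2 hu, Q,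
      fun s => by rw [← hQ s]; ring⟩)

end Pool.Agent.W423.NX
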