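import Pool.Agent.W423.NX.Ev2

set_option autoImplicit false

/-! The theorems for tuples and products, from the parts. -/

namespace Pool.Agent.W423.NX

open MvPolynomial Pool.Agent.H628R4.TZ Pool.Agent.W425.SM
open Pool.Agent.H628R4.TP hiding Sh
open Pool.Agent.W525.SM (Sh)
open Pool.Agent.W423.MG
open Pool.Agent.W423.NC
open MeasureTheory Set Filter Topology

variable {r N P : ℕ}

theorem mainT_of (hDesc : TaskDesc) (hNum : TaskNum) (hRelT : TaskRelT) (hKill : TaskKillX)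
    (hKer : TaskKerX) (hKer2 : TaskKer2) (hLim : TaskLimX) (hZeta : TaskZeta)
    (hScale : TaskScale) {F : Type} [Field F] [Algebra F ℂ]
    (g : Fin r → Fin (P+1)) (v : Fin r → Fin N → ℕ) (a : Fin r → ℂ)
    (h : Fin (P+1) → MvPolynomial (Fin N) F)
    (hg : ∀ k, ∃ j, g j = k) (hinj : ∀ j j', g j = g j' → v j = v j' → j = j')
    (ha : AlgebraicIndependent F a) (hh : ∀ k, ∀ w ∈ (h k).support, HullG False g v k w)
    (f : Fin (P+1) → MvPolynomial (Fin N) ℂ) (c : Fin (P+1) → ℂ) (t : Fin N → ℂ)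
    (hc : ∀ k, c k ≠ 0) (ht : ∀ l, t l ≠ 0) (hf : ∀ k, C (c k) * scal t (f k) = polyH g v a h k)
    (θ : Fin r → ℝ) (hθ : LinearIndependent ℚ θ) (R : SmoothFan N) (hR : PrincipalG g v R)
    (b : MvPolynomial (Fin (P+1)) F) (hb : InBSIdealT f (map (algebraMap F ℂ) b)) :
    ∃ Z : MvPolynomial (Fin (P+1)) ℂ,
      algebraMap _ (FractionRing (MvPolynomial (Fin (P+1)) ℂ)) (map (algebraMap F ℂ) b) *
        topZetaT g v θ R = algebraMap _ _ Z := by
  have e1 := hScale f (polyH g v a h) c t hc ht hf _ hb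
  have e0 : (fun s : Fin (P+1) → ℕ => eval (fun k => (s k : ℂ)) (map (algebraMap F ℂ) b)) =
      fun s => algebraMap F ℂ (eval (fun k => (s k : F)) b) := by
    funext s
    rw [eval_map, ← coe_eval₂Hom, ← RingHom.comp_apply]
    congr 1
    refine MvPolynomial.ringHom_ext (fun x => ?_) (fun k => ?_)
    · simp
    · simp
  rw [e0] at e1
  have e2 := hDesc False g v h a (fun _ => 1) Set.univ
    (fun s => eval (fun k => (s k : F)) b) ha e1
  have e3 := hNum False g v h (fun _ => 1) Set.univ (fun s => eval (fun k => (s k : F)) b) θ hθ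
    hh e2
  rw [← e0] at e3
  obtain ⟨p, hp, hrel⟩ := hRelT g v θ _ hg hinj e3
  rw [hp]
  exact hZeta g v θ hg R p fun η hη =>
    evalT_of hKill hKer hKer2 hLim g v θ hθ hg R hR p hrel η hη

theorem mainP_of (hDesc : TaskDesc) (hNum : TaskNum) (hRelP : TaskRelP) (hKill : TaskKillX)
    (hKer : TaskKerX) (hKer2 : TaskKer2) (hLim : TaskLimX) (hZeta : TaskZetaP)
    {F : Type} [Field F] [Algebra F ℂ] (loc : Prop)
    (g : Fin r → Fin (P+1)) (v : Fin r → Fin N → ℕ) (a : Fin r → ℂ)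
    (h : Fin (P+1) → MvPolynomial (Fin N) F) (m : Fin (P+1) → ℕ) (hm : ∀ k, 1 ≤ m k)
    (hg : ∀ k, ∃ j, g j = k)
    (ha : AlgebraicIndependent F a) (hh : ∀ k, ∀ w ∈ (h k).support, HullG loc g v k w)
    (θ : Fin r → ℝ) (hθ : LinearIndependent ℚ θ) (R : SmoothFan N) (hR : PrincipalG g v R)
    (b : Polynomial F)
    (hb : ∀ bs : (Fin (P+1) → ℕ) → ℂ,
      (∀ n : ℕ, bs (fun k => m k * n) = (b.map (algebraMap F ℂ)).eval (n : ℂ)) →
      FEq loc (polyH g v a h) m {s | ∃ n : ℕ, s = fun k => m k * n} bs) :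
    ∃ (n : ℕ) (Z : Polynomial ℂ),
      algebraMap (Polynomial ℂ) (RatFunc ℂ) (b.map (algebraMap F ℂ) *
        (∏ k : Fin (P+1), ∏ i ∈ Finset.range n,
          (Polynomial.C ((m k : ℕ) : ℂ) * Polynomial.X + Polynomial.C (i : ℂ))) ^ 3) *
        topZetaP loc g v θ m R = algebraMap (Polynomial ℂ) (RatFunc ℂ) Z := by
  classical
  have hm0 : (m 0 : F) ≠ 0 := by
    have h1 : (algebraMap F ℂ) (m 0 : F) ≠ 0 := by
      rw [map_natCast]
      exact_mod_cast (by have := hm 0; omega : m 0 ≠ 0)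
    intro h2
    exact h1 (by rw [h2, map_zero])
  set bs : (Fin (P+1) → ℕ) → F := fun s => b.eval ((s 0 : F) / (m 0 : F)) with hbs
  have hbs0 : ∀ n : ℕ, algebraMap F ℂ (bs (fun k => m k * n)) =
      (b.map (algebraMap F ℂ)).eval (n : ℂ) := by
    intro n
    rw [hbs]
    simp only
    have h1 : (((m 0 * n : ℕ) : F)) / (m 0 : F) = (n : F) := by
      push_cast
      field_simp
    rw [h1, Polynomial.eval_map, Polynomial.eval₂_at_natCast]
  have e1 := hb (fun s => algebraMap F ℂ (bs s)) hbs0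
  have e2 := hDesc loc g v h a m _ bs ha e1
  have e3 := hNum loc g v h m _ bs θ hθ hh e2
  obtain ⟨n1, hn1, hrel⟩ := hRelP loc g v θ m _ (b.map (algebraMap F ℂ)) hg hm hbs0 e3
  set αx : ℝ := if loc then -1 else 1 with hαx
  have hα0 : αx ≠ 0 := by
    rw [hαx]; split_ifs <;> norm_num
  have hαl : αx < 0 ↔ loc := by
    rw [hαx]; split_ifs with h <;> simp [h]
  obtain ⟨Q, s1, hQ⟩ := evalP_of hKill hKer hKer2 hLim g v θ hθ hg R hR m hm
    (b.map (algebraMap F ℂ)) n1 αx hα0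
    (fun θ0 η α0 hη hα => hrel θ0 η α0 αx hη hαl.2 hα)
  obtain ⟨Z, hZ⟩ := hZeta loc g v θ hg R m hm αx hα0 hαl _ Q s1 hQ
  -- the products divide
  have hd1 : (∏ k : Fin (P+1), (Polynomial.C ((m k : ℕ) : ℂ) * Polynomial.X + 1)) ∣
      riseM m n1 := by
    unfold riseM
    refine Finset.prod_dvd_prod_of_dvd _ _ fun k _ => ?_
    have h1 : (1:ℕ) ∈ Finset.range n1 := by simp; omega
    have h2 := Finset.dvd_prod_of_mem (fun i : ℕ =>
      (Polynomial.C ((m k : ℕ) : ℂ) * Polynomial.X + Polynomial.C (i : ℂ))) h1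
    simpa using h2
  have hd2 : E1m g m ∣ (∏ k : Fin (P+1), (Polynomial.C ((m k : ℕ) : ℂ) * Polynomial.X + 1)) := by
    unfold E1m
    exact Finset.prod_dvd_prod_of_subset _ _ _ (Finset.filter_subset _ _)
  obtain ⟨D1, hD1⟩ := hd1
  obtain ⟨D2, hD2⟩ := hd2.trans ⟨D1, hD1⟩
  refine ⟨n1, Z * (D1 * D2), ?_⟩
  have e4 : b.map (algebraMap F ℂ) *
        (∏ k : Fin (P+1), ∏ i ∈ Finset.range n1,
          (Polynomial.C ((m k : ℕ) : ℂ) * Polynomial.X + Polynomial.C (i : ℂ))) ^ 3 =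
      (b.map (algebraMap F ℂ) * riseM m n1 * E1m g m *
        ∏ k : Fin (P+1), (Polynomial.C ((m k : ℕ) : ℂ) * Polynomial.X + 1)) * (D1 * D2) := by
    have h1 : (∏ k : Fin (P+1), ∏ i ∈ Finset.range n1,
        (Polynomial.C ((m k : ℕ) : ℂ) * Polynomial.X + Polynomial.C (i : ℂ))) =
        riseM m n1 := rfl
    rw [h1]
    calc b.map (algebraMap F ℂ) * riseM m n1 ^ 3 =
        b.map (algebraMap F ℂ) * riseM m n1 * riseM m n1 * riseM m n1 := by ring
      _ = b.map (algebraMap F ℂ) * riseM m n1 * (E1m g m * D2) *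
          ((∏ k : Fin (P+1), (Polynomial.C ((m k : ℕ) : ℂ) * Polynomial.X + 1)) * D1) := by
        rw [← hD2, ← hD1]
      _ = _ := by ring
  rw [e4, map_mul, mul_right_comm, hZ, ← map_mul]

end Pool.Agent.W423.NX
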