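import Pool.Agent.W423.NX.Ev

set_option autoImplicit false

/-! The evaluation for tuples and for products. -/

namespace Pool.Agent.W423.NX

open MvPolynomial Pool.Agent.H628R4.TZ Pool.Agent.W425.SM
open Pool.Agent.H628R4.TP hiding Sh
open Pool.Agent.W525.SM (Sh)
open Pool.Agent.W423.MG
open Pool.Agent.W423.NC
open MeasureTheory Set Filter Topology

variable {r N P n : ℕ}

lemma limX_T (g : Fin r → Fin (P+1)) (v : Fin r → Fin N → ℕ) (θ : Fin r → ℝ)
    (R : SmoothFan N) (η : Fin (P+1) → ℝ) (J : Finset (Fin r)) (s : ℝ) :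
    limX g v θ R (fun _ => 1) η 1 J s = limT g v θ R η J s := by
  classical
  unfold limX limT
  refine Finset.sum_congr rfl fun σ _ => ?_
  have h1 : Inc (N := N) 1 σ := Or.inl one_pos
  have h2 : ∀ ρ : Fin N → ℕ, kX g v (fun _ => 1) η s ρ = kT g v η s ρ := by
    intro ρ
    unfold kX kT
    simp
  simp only [h1, true_and, h2]

lemma limX_P (g : Fin r → Fin (P+1)) (v : Fin r → Fin N → ℕ) (θ : Fin r → ℝ)
    (R : SmoothFan N) (m : Fin (P+1) → ℕ) (η αx : ℝ) (J : Finset (Fin r)) (s : ℝ) :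
    limX g v θ R m (fun k => η * (m k : ℝ)) αx J (s - η) = limP g v θ R m αx J s := by
  classical
  unfold limX limP
  refine Finset.sum_congr rfl fun σ _ => ?_
  have h2 : ∀ ρ : Fin N → ℕ, ((kX g v m (fun k => η * (m k : ℝ)) (s - η) ρ : ℝ) : ℂ) =
      ((∑ k, m k * ordG g v k ρ : ℕ) : ℂ) * (s : ℂ) + ((∑ l, ρ l : ℕ) : ℂ) := by
    intro ρ
    unfold kX
    have h3 : ∑ k, (ordG g v k ρ : ℝ) * ((m k : ℝ) * (s - η) + η * (m k : ℝ)) =
        ((∑ k, m k * ordG g v k ρ : ℕ) : ℝ) * s := by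
      push_cast
      rw [Finset.sum_mul]
      refine Finset.sum_congr rfl fun k _ => ?_
      ring
    rw [h3]
    push_cast
    ring
  simp only [h2]

lemma al_exists (v : Fin r → Fin N → ℕ) (αx : ℝ) :
    ∃ α0 : ℝ, 0 < α0 ∧ ∀ j, αx * ∑ i, (v j i : ℝ) < α0 := by
  have hsn : ∀ j, 0 ≤ ∑ i, (v j i : ℝ) := fun j => Finset.sum_nonneg fun i _ => Nat.cast_nonneg _
  have h0 : 0 ≤ ∑ j, ∑ i, (v j i : ℝ) := Finset.sum_nonneg fun j _ => hsn j
  refine ⟨|αx| * ∑ j, ∑ i, (v j i : ℝ) + 1, by positivity, fun j => ?_⟩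
  have h1 := Finset.single_le_sum (f := fun j => ∑ i, (v j i : ℝ)) (fun j _ => hsn j)
      (Finset.mem_univ j)
  have h2 : αx * ∑ i, (v j i : ℝ) ≤ |αx| * ∑ i, (v j i : ℝ) :=
    mul_le_mul_of_nonneg_right (le_abs_self _) (hsn j)
  have h3 : |αx| * ∑ i, (v j i : ℝ) ≤ |αx| * ∑ j, ∑ i, (v j i : ℝ) :=
    mul_le_mul_of_nonneg_left h1 (abs_nonneg _)
  linarith

/-- Tuples. -/
theorem evalT_of (h1 : TaskKillX) (h3 : TaskKerX) (h4 : TaskKer2) (h5 : TaskLimX)
    (g : Fin r → Fin (P+1)) (v : Fin r → Fin N → ℕ) (θ : Fin r → ℝ)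
    (hθ : LinearIndependent ℚ θ) (hg : ∀ k, ∃ j, g j = k) (R : SmoothFan N)
    (hR : PrincipalG g v R) (p : MvPolynomial (Fin (P+1)) ℂ)
    (hrel : ∀ (θ0 : ℝ) (η : Fin (P+1) → ℝ) (α : Fin (P+1+N) → ℝ),
      RelX (vx g v (fun _ => 1)) (wh η) (Fin.cons θ0 θ) α (rn (E1 g)) (X 0 * rn (bts g p)))
    (η : Fin (P+1) → ℝ) (hη : ∀ k, 0 < η k ∧ η k < 1) :
    ∃ (Q : Polynomial ℂ) (s1 : ℝ), 0 < s1 ∧ ∀ s : ℝ, s1 ≤ s →
      eval (fun k => ((s + η k : ℝ) : ℂ)) p *
        ∑ J ∈ Finset.univ.filter (fun J : Finset (Fin r) => ∀ k, ∃ j ∈ J, g j = k),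
          (-1) ^ J.card * (idxC g v J : ℂ) ^ 2 * eval (fun k => ((s + η k : ℝ) : ℂ)) (hJ g J) *
            limT g v θ R η J s = Q.eval (s : ℂ) := by
  classical
  obtain ⟨θ0, hθ0⟩ := exists_ext θ hθ
  have hη0 : ∀ k, 0 < η k := fun k => (hη k).1
  obtain ⟨α0, hα0, hα⟩ := al_exists v 1
  have hkill := h1 (vx g v (fun _ => 1)) (wh η) (wh_pos η hη0) (Fin.cons θ0 θ) (ax α0 1)
    (rn (E1 g)) (X 0 * rn (bts g p)) (rn (kerN g v)) (hrel θ0 η (ax α0 1))
    (h3 g v (fun _ => 1) η hη)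
  obtain ⟨Q, s0, hs0, hQ⟩ := evX h5 g v (fun _ => 1) (fun _ => le_refl _) θ θ0 hθ0 hg R hR η hη0
    α0 1 hα0 one_ne_zero hα (rn (kerN g v) * (X 0 * rn (bts g p)))
    (fun J => evx (fun _ => 1) η (hJ g J * p))
    (fun J => rn (bts g (hJ g J * p)) -
      Polynomial.aeval (Sg r) (evx (fun _ => 1) η (hJ g J * p)))
    (fun J => btsx_sub g (fun _ => 1) η (hJ g J * p)) (by
      rw [h4 g v hg, map_sum, Finset.sum_mul]
      refine Finset.sum_congr rfl fun J _ => ?_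
      rw [rn_X, ← map_mul]
      congr 2
      ring) hkill
  refine ⟨Q, s0, hs0, fun s hs => ?_⟩
  rw [← hQ s hs, Finset.mul_sum]
  refine Finset.sum_congr rfl fun J _ => ?_
  rw [limX_T, eval_evx, map_mul]
  simp only [Nat.cast_one, one_mul]
  ring

/-- `∏ (s_k + 1)` over the groups with one term -/
noncomputable def E1p (g : Fin r → Fin (P+1)) : MvPolynomial (Fin (P+1)) ℂ :=
  ∏ k ∈ Finset.univ.filter (fun k => k ∉ mulS g), (X k + 1)

/-- `∏_k ∏_{i < n} (s_k + i)` -/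
noncomputable def riseP (n : ℕ) : MvPolynomial (Fin (P+1)) ℂ :=
  ∏ k, ∏ i ∈ Finset.range n, (X k + C (i : ℂ))

lemma sgm_single (g : Fin r → Fin (P+1)) (j : Fin r) (hj : g j ∉ mulS g) :
    sgm g (g j) = X j := by
  classical
  have h1 : (Finset.univ.filter fun j' => g j' = g j) = {j} := by
    unfold mulS at hj
    simp only [Finset.mem_filter, Finset.mem_univ, true_and, not_le] at hj
    have h2 : j ∈ Finset.univ.filter fun j' => g j' = g j := by simp
    have h3 : (Finset.univ.filter fun j' => g j' = g j).card = 1 := by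
      have := Finset.card_pos.2 ⟨j, h2⟩
      omega
    obtain ⟨j0, h0⟩ := Finset.card_eq_one.1 h3
    rw [h0] at h2 ⊢
    rw [Finset.mem_singleton.1 h2]
  unfold sgm gs
  rw [← Finset.sum_filter, h1, Finset.sum_singleton]

lemma E1_eq (g : Fin r → Fin (P+1)) (hg : ∀ k, ∃ j, g j = k) : E1 g = bts g (E1p g) := by
  classical
  unfold E1 E1p bts
  rw [map_prod]
  refine Finset.prod_bij (fun j _ => g j) ?_ ?_ ?_ ?_
  · intro j hj
    simpa using hj
  · intro j hj j' hj' h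
    have h1 : g j ∉ mulS g := by simpa using hj
    have h2 : g j' ∉ mulS g := by simpa using hj'
    have h3 : (X j : MvPolynomial (Fin r) ℂ) = X j' := by
      rw [← sgm_single g j h1, ← sgm_single g j' h2]
      congr 1
    exact X_injective h3
  · intro k hk
    obtain ⟨j, hj⟩ := hg k
    refine ⟨j, ?_, hj⟩
    rw [← hj] at hk
    simpa using hk
  · intro j hj
    have h1 : g j ∉ mulS g := by simpa using hj
    rw [map_add, map_one, aeval_X, sgm_single g j h1]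

lemma rise_eq (g : Fin r → Fin (P+1)) (n : ℕ) : rise g n = bts g (riseP n) := by
  unfold rise riseP bts
  rw [map_prod]
  refine Finset.prod_congr rfl fun k _ => ?_
  rw [map_prod]
  refine Finset.prod_congr rfl fun i _ => ?_
  rw [map_add, aeval_X, aeval_C]
  rfl

/-- `∏_k ∏_{i < n} (m_k s + i)` -/
noncomputable def riseM (m : Fin (P+1) → ℕ) (n : ℕ) : Polynomial ℂ :=
  ∏ k : Fin (P+1), ∏ i ∈ Finset.range n,
    (Polynomial.C ((m k : ℕ) : ℂ) * Polynomial.X + Polynomial.C (i : ℂ))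

/-- `∏ (m_k s + 1)` over the groups with one term -/
noncomputable def E1m (g : Fin r → Fin (P+1)) (m : Fin (P+1) → ℕ) : Polynomial ℂ :=
  ∏ k ∈ Finset.univ.filter (fun k => k ∉ mulS g),
    (Polynomial.C ((m k : ℕ) : ℂ) * Polynomial.X + 1)

lemma riseM_eval (m : Fin (P+1) → ℕ) (n : ℕ) (s : ℂ) :
    (riseM m n).eval s = eval (fun k => (m k : ℂ) * s) (riseP n) := by
  unfold riseM riseP
  rw [Polynomial.eval_prod, map_prod]
  refine Finset.prod_congr rfl fun k _ => ?_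
  rw [Polynomial.eval_prod, map_prod]
  refine Finset.prod_congr rfl fun i _ => ?_
  simp

lemma E1m_eval (g : Fin r → Fin (P+1)) (m : Fin (P+1) → ℕ) (s : ℂ) :
    (E1m g m).eval s = eval (fun k => (m k : ℂ) * s) (E1p g) := by
  unfold E1m E1p
  rw [Polynomial.eval_prod, map_prod]
  refine Finset.prod_congr rfl fun k _ => ?_
  simp

/-- Products. -/
theorem evalP_of (h1 : TaskKillX) (h3 : TaskKerX) (h4 : TaskKer2) (h5 : TaskLimX)
    (g : Fin r → Fin (P+1)) (v : Fin r → Fin N → ℕ) (θ : Fin r → ℝ)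
    (hθ : LinearIndependent ℚ θ) (hg : ∀ k, ∃ j, g j = k) (R : SmoothFan N)
    (hR : PrincipalG g v R) (m : Fin (P+1) → ℕ) (hm : ∀ k, 1 ≤ m k) (b : Polynomial ℂ)
    (n1 : ℕ) (αx : ℝ) (hαx : αx ≠ 0)
    (hrel : ∀ (θ0 η α0 : ℝ), 0 < η → (∀ j, αx * ∑ i, (v j i : ℝ) < α0) →
      RelX (vx g v m) (wh fun k => η * (m k : ℝ)) (Fin.cons θ0 θ) (ax α0 αx) 1
        (X 0 * (rn (rise g n1) * Polynomial.aeval (Sg r + C (η : ℂ)) b))) :
    ∃ (Q : Polynomial ℂ) (s1 : ℝ), ∀ s : ℝ, s1 ≤ s →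
      (b * riseM m n1 * E1m g m).eval (s : ℂ) *
        ∑ J ∈ Finset.univ.filter (fun J : Finset (Fin r) => ∀ k, ∃ j ∈ J, g j = k),
          (-1) ^ J.card * (idxC g v J : ℂ) ^ 2 * eval (fun k => (m k : ℂ) * (s : ℂ)) (hJ g J) *
            limP g v θ R m αx J s = Q.eval (s : ℂ) := by
  classical
  obtain ⟨θ0, hθ0⟩ := exists_ext θ hθ
  set η : ℝ := 1 / (1 + ∑ k, (m k : ℝ)) with hη
  have hsm : 0 ≤ ∑ k, (m k : ℝ) := Finset.sum_nonneg fun k _ => Nat.cast_nonneg _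
  have hηpos : 0 < η := by positivity
  have hηm : ∀ k, 0 < η * (m k : ℝ) ∧ η * (m k : ℝ) < 1 := by
    intro k
    have h1 : (1:ℝ) ≤ (m k : ℝ) := by exact_mod_cast hm k
    refine ⟨by positivity, ?_⟩
    have h2 := Finset.single_le_sum (f := fun k => (m k : ℝ)) (fun j _ => Nat.cast_nonneg _)
      (Finset.mem_univ k)
    rw [hη, one_div, inv_mul_lt_iff₀ (by positivity)]
    linarith
  have hη0 : ∀ k, 0 < η * (m k : ℝ) := fun k => (hηm k).1
  obtain ⟨α0, hα0, hα⟩ := al_exists v αx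
  have hkill := h1 (vx g v m) (wh fun k => η * (m k : ℝ)) (wh_pos _ hη0) (Fin.cons θ0 θ)
    (ax α0 αx) 1 (X 0 * (rn (rise g n1) * Polynomial.aeval (Sg r + C (η : ℂ)) b))
    (rn (kerN g v) * rn (E1 g)) (hrel θ0 η α0 hηpos hα) (by
      intro κ i hκ
      rw [mul_one]
      exact h3 g v m _ hηm κ i hκ)
  set q : Finset (Fin r) → MvPolynomial (Fin (P+1)) ℂ :=
    fun J => hJ g J * (E1p g * riseP n1) with hq
  obtain ⟨Q, s0, hs0, hQ⟩ := evX h5 g v m hm θ θ0 hθ0 hg R hR (fun k => η * (m k : ℝ)) hη0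
    α0 αx hα0 hαx hα (rn (kerN g v) * rn (E1 g) *
      (X 0 * (rn (rise g n1) * Polynomial.aeval (Sg r + C (η : ℂ)) b)))
    (fun J => evx m (fun k => η * (m k : ℝ)) (q J) *
      b.comp (Polynomial.X + Polynomial.C (η : ℂ)))
    (fun J => (rn (bts g (q J)) -
      Polynomial.aeval (Sg r) (evx m (fun k => η * (m k : ℝ)) (q J))) *
      Polynomial.aeval (Sg r + C (η : ℂ)) b)
    (fun J => Ideal.mul_mem_right _ _ (btsx_sub g m _ (q J))) (by
      rw [h4 g v hg, map_sum, Finset.sum_mul, Finset.sum_mul]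
      refine Finset.sum_congr rfl fun J _ => ?_
      have e1 : Polynomial.aeval (Sg r) (b.comp (Polynomial.X + Polynomial.C (η : ℂ))) =
          Polynomial.aeval (Sg r + C (η : ℂ)) b := by
        rw [Polynomial.aeval_comp]
        congr 1
        rw [map_add, Polynomial.aeval_X, Polynomial.aeval_C]
        rfl
      have e2 := rn_X J (bts g (hJ g J)) (E1 g * rise g n1) ((idxC g v J : ℂ) ^ 2)
      have e1' : Polynomial.aeval (Sg r) (evx m (fun k => η * (m k : ℝ)) (q J) *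
          b.comp (Polynomial.X + Polynomial.C (η : ℂ))) =
          Polynomial.aeval (Sg r) (evx m (fun k => η * (m k : ℝ)) (q J)) *
          Polynomial.aeval (Sg r + C (η : ℂ)) b := by
        rw [map_mul, e1]
      rw [e1']
      have e3 : rn (bts g (q J)) = rn (bts g (hJ g J) * (E1 g * rise g n1)) := by
        rw [hq]
        simp only
        rw [E1_eq g hg, rise_eq, ← map_mul, ← map_mul]
      rw [e3]
      rw [map_mul rn (E1 g) (rise g n1)] at e2
      have e4 : rn (C ((idxC g v J : ℂ) ^ 2) * ((∏ j ∈ J, X j) * bts g (hJ g J))) *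
          rn (E1 g) * (X 0 * (rn (rise g n1) * Polynomial.aeval (Sg r + C (η : ℂ)) b)) =
          (rn (C ((idxC g v J : ℂ) ^ 2) * ((∏ j ∈ J, X j) * bts g (hJ g J))) *
          (X 0 * (rn (E1 g) * rn (rise g n1)))) *
            Polynomial.aeval (Sg r + C (η : ℂ)) b := by ring
      rw [e4, e2]
      ring) hkill
  refine ⟨Q.comp (Polynomial.X - Polynomial.C (η : ℂ)), s0 + η, fun s hs => ?_⟩
  have e5 := hQ (s - η) (by linarith)
  have e6 : (Q.comp (Polynomial.X - Polynomial.C (η : ℂ))).eval (s : ℂ) =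
      Q.eval (((s - η : ℝ)) : ℂ) := by
    rw [Polynomial.eval_comp]
    simp
  rw [e6, ← e5, Finset.mul_sum]
  refine Finset.sum_congr rfl fun J _ => ?_
  rw [limX_P, Polynomial.eval_mul, Polynomial.eval_mul, Polynomial.eval_mul, eval_evx,
    riseM_eval, E1m_eval, Polynomial.eval_comp]
  have e7 : (fun k => (((m k : ℝ) * (s - η) + η * (m k : ℝ) : ℝ) : ℂ)) =
      fun k => (m k : ℂ) * (s : ℂ) := by
    funext k
    push_cast
    ring
  have e8 : (Polynomial.X + Polynomial.C (η : ℂ)).eval (((s - η : ℝ)) : ℂ) = (s : ℂ) := by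
    simp
  rw [e7, e8, hq]
  simp only
  rw [map_mul, map_mul]
  ring

end Pool.Agent.W423.NX
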