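import Pool.Agent.W423.NX.Defs
import Pool.Agent.W423.NC.Eval

set_option autoImplicit false

/-! The evaluation in the extended system with multiplicities. -/

namespace Pool.Agent.W423.NX

open MvPolynomial Pool.Agent.H628R4.TZ Pool.Agent.W425.SM
open Pool.Agent.H628R4.TP hiding Sh
open Pool.Agent.W525.SM (Sh)
open Pool.Agent.W423.MG
open Pool.Agent.W423.NC
open MeasureTheory Set Filter Topology

variable {r N P n : ℕ}

lemma aR_Ax (g : Fin r → Fin (P+1)) (v : Fin r → Fin N → ℕ) (m : Fin (P+1) → ℕ) :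
    aR (Ax g v m) = av (vx g v m) := by
  funext j i
  unfold aR Ax av
  refine Fin.cases ?_ (fun i => ?_) i
  · simp
  · simp

/-- `η_k + m_k (X_0 + S) - S_k` -/
noncomputable def tbx (g : Fin r → Fin (P+1)) (m : Fin (P+1) → ℕ) (η : Fin (P+1) → ℝ)
    (k : Fin (P+1)) : MvPolynomial (Fin (r+1)) ℂ :=
  C ((η k : ℝ) : ℂ) + (C ((m k : ℕ) : ℂ) * Sg r - rn (sgm g k))

lemma vx_castAdd0 (g : Fin r → Fin (P+1)) (v : Fin r → Fin N → ℕ) (m : Fin (P+1) → ℕ)
    (k : Fin (P+1)) : vx g v m 0 (Fin.castAdd N k) = m k := by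
  unfold vx
  rw [Fin.cons_zero, Fin.append_left]

lemma vx_castAdds (g : Fin r → Fin (P+1)) (v : Fin r → Fin N → ℕ) (m : Fin (P+1) → ℕ)
    (j : Fin r) (k : Fin (P+1)) :
    vx g v m j.succ (Fin.castAdd N k) = if g j = k then m k - 1 else m k := by
  unfold vx
  rw [Fin.cons_succ, Fin.append_left]

lemma vx_natAdd0 (g : Fin r → Fin (P+1)) (v : Fin r → Fin N → ℕ) (m : Fin (P+1) → ℕ)
    (i : Fin N) : vx g v m 0 (Fin.natAdd (P+1) i) = 0 := by
  unfold vx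
  rw [Fin.cons_zero, Fin.append_right]

lemma vx_natAdds (g : Fin r → Fin (P+1)) (v : Fin r → Fin N → ℕ) (m : Fin (P+1) → ℕ)
    (j : Fin r) (i : Fin N) : vx g v m j.succ (Fin.natAdd (P+1) i) = v j i := by
  unfold vx
  rw [Fin.cons_succ, Fin.append_right]

lemma tbx_eq (g : Fin r → Fin (P+1)) (v : Fin r → Fin N → ℕ) (m : Fin (P+1) → ℕ)
    (hm : ∀ k, 1 ≤ m k) (η : Fin (P+1) → ℝ) (s : ℝ) (k : Fin (P+1)) : tbx g m η k =
      C ((lmw s (wh (N := N) η) (tc k) : ℝ) : ℂ) + Lf (fun j => av (vx g v m) j (tc k)) := by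
  unfold tbx
  have h1 : lmw s (wh (N := N) η) (tc k) = η k := by
    unfold lmw tc
    rw [Fin.cons_succ, wh_castAdd]
  rw [h1]
  congr 1
  rw [rn_sgm]
  unfold Lf Sg av tc
  simp only [Fin.cons_succ]
  rw [Fin.sum_univ_succ, Fin.sum_univ_succ, vx_castAdd0]
  simp only [vx_castAdds]
  rw [mul_add, add_sub_assoc, Finset.mul_sum, ← Finset.sum_sub_distrib]
  have hcast : ∀ z : ℕ, (C ((((z : ℕ) : ℝ) : ℝ) : ℂ) : MvPolynomial (Fin (r+1)) ℂ) =
      C ((z : ℕ) : ℂ) := by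
    intro z
    rw [Complex.ofReal_natCast]
  rw [hcast]
  congr 1
  refine Finset.sum_congr rfl fun j _ => ?_
  rw [hcast]
  have hk := hm k
  split_ifs
  · rw [Nat.cast_sub hk, Nat.cast_one, map_sub, map_one]
    ring
  · ring

lemma Y_diffx (g : Fin r → Fin (P+1)) (v : Fin r → Fin N → ℕ) (m : Fin (P+1) → ℕ)
    (y0 : Fin (r+1) → ℝ)
    (x : Fin (P+1+N+1) → ℝ) (hx : ∀ i, 0 ≤ x i) (k : Fin (P+1)) (hk : x (tc k) = 0)
    (j : Fin r) (hj : g j = k) :
    Y (av (vx g v m)) y0 x 0 + (y0 j.succ - y0 0) ≤ Y (av (vx g v m)) y0 x j.succ := by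
  unfold Y
  rw [sum_coords, sum_coords]
  have e0 : av (vx g v m) 0 0 = -1 := rfl
  have e1 : av (vx g v m) j.succ 0 = -1 := rfl
  have e2 : ∀ k', av (vx g v m) 0 (tc k') = (m k' : ℝ) := by
    intro k'
    unfold av tc
    rw [Fin.cons_succ, vx_castAdd0]
  have e3 : ∀ i, av (vx g v m) 0 (wco i) = 0 := by
    intro k'
    unfold av wco
    rw [Fin.cons_succ, vx_natAdd0]
    simp
  have e4 : ∀ k', av (vx g v m) j.succ (tc k') =
      ((if g j = k' then m k' - 1 else m k' : ℕ) : ℝ) := by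
    intro k'
    unfold av tc
    rw [Fin.cons_succ, vx_castAdds]
  have e5 : ∀ i, av (vx g v m) j.succ (wco i) = (v j i : ℝ) := by
    intro k'
    unfold av wco
    rw [Fin.cons_succ, vx_natAdds]
  simp only [e0, e1, e2, e3, e4, e5]
  have h1 : ∑ k' : Fin (P+1), ((if g j = k' then m k' - 1 else m k' : ℕ) : ℝ) * x (tc k') =
      ∑ k' : Fin (P+1), (m k' : ℝ) * x (tc k') := by
    refine Finset.sum_congr rfl fun k' _ => ?_
    split_ifs with h
    · rw [← h, hj, hk]; ring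
    · rfl
  rw [h1]
  have h2 : 0 ≤ ∑ i, (v j i : ℝ) * x (wco i) :=
    Finset.sum_nonneg fun i _ => mul_nonneg (Nat.cast_nonneg _) (hx _)
  have h3 : ∑ i : Fin N, (0:ℝ) * x (wco i) = 0 := by simp
  rw [h3]
  linarith

/-- the boundary terms of the directions `β_k` vanish -/
lemma Φ_tbx (g : Fin r → Fin (P+1)) (v : Fin r → Fin N → ℕ) (m : Fin (P+1) → ℕ)
    (hm : ∀ k, 1 ≤ m k) (η : Fin (P+1) → ℝ)
    (hη : ∀ k, 0 < η k) (ε : ℝ) (hε : 0 < ε) (s : ℝ) (hs : 0 < s) (y0 : Fin (r+1) → ℝ)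
    (hy : ∀ j : Fin r, ε < y0 j.succ - y0 0) (k : Fin (P+1)) (j : Fin r) (hj : g j = k)
    (p : MvPolynomial (Fin (r+1)) ℂ) :
    Φ (ph ε) ∅ (lmw s (wh (N := N) η)) (av (vx g v m)) y0
      (tbx g m η k * (X 0 * (X j.succ * p))) = 0 := by
  rw [tbx_eq g v m hm η s k, Φ_step (ph_dseq ε hε) ∅ _ (lmw_pos s hs _ (wh_pos η hη))
    (av (vx g v m)) y0 (tc k) (by simp)]
  refine Φ_eq_zero _ _ _ _ _ fun x hx0 hxS => ?_
  set y := Y (av (vx g v m)) y0 x with hyd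
  have h1 := Y_diffx g v m y0 x hx0 k (hxS _ (Finset.mem_insert_self _ _)) j hj
  rw [← hyd] at h1
  rcases lt_or_ge (y 0) 0 with h0 | h0
  · exact MG.D_neg ε hε y 0 h0 _
  · rw [mul_left_comm]
    refine NC.D_big ε hε y j.succ ?_ _
    linarith [hy j]

lemma Φ_idealx (g : Fin r → Fin (P+1)) (v : Fin r → Fin N → ℕ) (m : Fin (P+1) → ℕ)
    (hm : ∀ k, 1 ≤ m k) (η : Fin (P+1) → ℝ)
    (hη : ∀ k, 0 < η k) (ε : ℝ) (hε : 0 < ε) (s : ℝ) (hs : 0 < s) (y0 : Fin (r+1) → ℝ)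
    (hy : ∀ j : Fin r, ε < y0 j.succ - y0 0) (J : Finset (Fin r))
    (hJ : ∀ k, ∃ j ∈ J, g j = k)
    (h : MvPolynomial (Fin (r+1)) ℂ) (hh : h ∈ Ideal.span (Set.range (tbx g m η))) :
    ∀ p : MvPolynomial (Fin (r+1)) ℂ,
      Φ (ph ε) ∅ (lmw s (wh (N := N) η)) (av (vx g v m)) y0 (kkJ J * (p * h)) = 0 := by
  refine Submodule.span_induction (p := fun h _ => ∀ p : MvPolynomial (Fin (r+1)) ℂ,
    Φ (ph ε) ∅ (lmw s (wh (N := N) η)) (av (vx g v m)) y0 (kkJ J * (p * h)) = 0) ?_ ?_ ?_ ?_ hh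
  · rintro _ ⟨k, rfl⟩ p
    obtain ⟨j, hjJ, hj⟩ := hJ k
    obtain ⟨q, hq⟩ := kkJ_fac J j hjJ
    have h1 : kkJ J * (p * tbx g m η k) = tbx g m η k * (X 0 * (X j.succ * (q * p))) := by
      rw [hq]; ring
    rw [h1]
    exact Φ_tbx g v m hm η hη ε hε s hs y0 hy k j hj _
  · intro p
    rw [mul_zero, mul_zero]
    have := Φ_C_mul (φ := ph ε) ∅ (lmw s (wh (N := N) η)) (av (vx g v m)) y0 0 0
    simpa using this
  · intro x y _ _ hx hy p
    rw [mul_add, mul_add, Φ_add (ph_dseq ε hε) _ _ (lmw_pos s hs _ (wh_pos η hη)), hx, hy,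
      add_zero]
  · intro a x _ hx p
    rw [smul_eq_mul, ← mul_assoc p]
    exact hx _

/-- the restriction to the line -/
noncomputable def evx (m : Fin (P+1) → ℕ) (η : Fin (P+1) → ℝ) :
    MvPolynomial (Fin (P+1)) ℂ →ₐ[ℂ] Polynomial ℂ :=
  aeval (fun k => Polynomial.C ((m k : ℕ) : ℂ) * Polynomial.X + Polynomial.C ((η k : ℝ) : ℂ))

lemma evx_X (m : Fin (P+1) → ℕ) (η : Fin (P+1) → ℝ) (k : Fin (P+1)) :
    evx m η (X k) =
      Polynomial.C ((m k : ℕ) : ℂ) * Polynomial.X + Polynomial.C ((η k : ℝ) : ℂ) := by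
  unfold evx
  rw [aeval_X]

lemma eval_evx (m : Fin (P+1) → ℕ) (η : Fin (P+1) → ℝ) (s : ℝ)
    (b : MvPolynomial (Fin (P+1)) ℂ) :
    (evx m η b).eval (s : ℂ) = eval (fun k => (((m k : ℝ) * s + η k : ℝ) : ℂ)) b := by
  induction b using MvPolynomial.induction_on with
  | C a => simp [evx]
  | add p q hp hq => rw [map_add, Polynomial.eval_add, hp, hq, map_add]
  | mul_X p i hp =>
    rw [map_mul, Polynomial.eval_mul, hp, map_mul, eval_X, evx_X]
    congr 1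
    simp

/-- reduction to one variable -/
lemma btsx_sub (g : Fin r → Fin (P+1)) (m : Fin (P+1) → ℕ) (η : Fin (P+1) → ℝ)
    (b : MvPolynomial (Fin (P+1)) ℂ) :
    rn (bts g b) - Polynomial.aeval (Sg r) (evx m η b) ∈
      Ideal.span (Set.range (tbx g m η)) := by
  have hX : ∀ i : Fin (P+1), rn (bts g (X i)) - Polynomial.aeval (Sg r) (evx m η (X i)) ∈
      Ideal.span (Set.range (tbx g m η)) := by
    intro i
    have hb : bts g (X i) = sgm g i := by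
      unfold bts
      rw [aeval_X]
    rw [hb, evx_X, map_add, map_mul, Polynomial.aeval_X, Polynomial.aeval_C,
      Polynomial.aeval_C]
    have h1 : rn (sgm g i) - (algebraMap ℂ (MvPolynomial (Fin (r+1)) ℂ) ((m i : ℕ) : ℂ) * Sg r +
        algebraMap ℂ (MvPolynomial (Fin (r+1)) ℂ) ((η i : ℝ) : ℂ)) = -1 * tbx g m η i := by
      unfold tbx
      have h2 : ∀ z : ℂ, algebraMap ℂ (MvPolynomial (Fin (r+1)) ℂ) z = C z := fun _ => rfl
      rw [h2, h2]
      ring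
    rw [h1]
    exact Ideal.mul_mem_left _ _ (Ideal.subset_span ⟨i, rfl⟩)
  induction b using MvPolynomial.induction_on with
  | C a =>
    have h1 : rn (bts g (C a : MvPolynomial (Fin (P+1)) ℂ)) = C a := by
      unfold bts rn
      rw [aeval_C]
      exact rename_C _ _
    have h2 : evx m η (C a : MvPolynomial (Fin (P+1)) ℂ) = Polynomial.C a := by
      unfold evx
      rw [aeval_C]
      rfl
    rw [h1, h2, Polynomial.aeval_C]
    have h3 : (algebraMap ℂ (MvPolynomial (Fin (r+1)) ℂ)) a = C a := rfl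
    rw [h3, sub_self]
    exact Ideal.zero_mem _
  | add p q hp hq =>
    have h1 : rn (bts g (p + q)) - Polynomial.aeval (Sg r) (evx m η (p + q)) =
        (rn (bts g p) - Polynomial.aeval (Sg r) (evx m η p)) +
        (rn (bts g q) - Polynomial.aeval (Sg r) (evx m η q)) := by
      rw [map_add, map_add, map_add, map_add]
      ring
    rw [h1]
    exact Ideal.add_mem _ hp hq
  | mul_X p i hp =>
    have h1 : rn (bts g (p * X i)) - Polynomial.aeval (Sg r) (evx m η (p * X i)) =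
        rn (bts g (X i)) * (rn (bts g p) - Polynomial.aeval (Sg r) (evx m η p)) +
        Polynomial.aeval (Sg r) (evx m η p) *
          (rn (bts g (X i)) - Polynomial.aeval (Sg r) (evx m η (X i))) := by
      rw [map_mul, map_mul, map_mul, map_mul]
      ring
    rw [h1]
    exact Ideal.add_mem _ (Ideal.mul_mem_left _ _ hp) (Ideal.mul_mem_left _ _ (hX i))

/-! ### The translations -/

lemma yo_x (g : Fin r → Fin (P+1)) (v : Fin r → Fin N → ℕ) (m : Fin (P+1) → ℕ)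
    (θ : Fin (r+1) → ℝ) (K α0 αx : ℝ)
    (l : ℕ) : yo (Ax g v m) θ (bx K α0 αx) l =
      yW (vx g v m) θ (ax α0 αx) (K * dl l) (dl l) (dl l ^ 2) := by
  funext j
  unfold yo yW yA Ax bx
  rw [Fin.sum_univ_succ]
  simp only [Fin.cons_zero, Fin.cons_succ]
  have h1 : ∑ i : Fin (P+1+N), ((vx g v m j i : ℤ) : ℝ) * ax (N := N) (P := P) α0 αx i =
      ∑ i, ax (N := N) (P := P) α0 αx i * (vx g v m j i : ℝ) := by
    refine Finset.sum_congr rfl fun i _ => ?_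
    push_cast
    ring
  rw [h1]
  push_cast
  ring

lemma sum_apps (g : Fin r → Fin (P+1)) (v : Fin r → Fin N → ℕ) (m : Fin (P+1) → ℕ)
    (hm : ∀ k, 1 ≤ m k) (α0 αx : ℝ) (j : Fin r) :
    ∑ i, ax (N := N) (P := P) α0 αx i * (vx g v m j.succ i : ℝ) =
      ((∑ k, (m k : ℝ)) - 1) * α0 + αx * ∑ i, (v j i : ℝ) := by
  rw [Fin.sum_univ_add]
  unfold ax
  simp only [Fin.append_left, Fin.append_right, vx_castAdds, vx_natAdds]
  rw [← Finset.mul_sum, ← Finset.mul_sum]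
  congr 1
  have h1 : ∑ k : Fin (P+1), (((if g j = k then m k - 1 else m k : ℕ)) : ℝ) =
      (∑ k, (m k : ℝ)) - 1 := by
    have h2 : ∀ k : Fin (P+1), (((if g j = k then m k - 1 else m k : ℕ)) : ℝ) =
        (m k : ℝ) - if g j = k then 1 else 0 := by
      intro k
      have hk := hm k
      split_ifs
      · push_cast [Nat.cast_sub hk]; ring
      · simp
    simp only [h2]
    rw [Finset.sum_sub_distrib, Finset.sum_ite_eq]
    simp
  rw [h1]
  ring

lemma sum_apps0 (g : Fin r → Fin (P+1)) (v : Fin r → Fin N → ℕ) (m : Fin (P+1) → ℕ)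
    (α0 αx : ℝ) :
    ∑ i, ax (N := N) (P := P) α0 αx i * (vx g v m 0 i : ℝ) = (∑ k, (m k : ℝ)) * α0 := by
  rw [Fin.sum_univ_add]
  unfold ax
  simp only [Fin.append_left, Fin.append_right, vx_castAdd0, vx_natAdd0]
  rw [← Finset.mul_sum]
  simp
  ring

lemma yo_diffx (g : Fin r → Fin (P+1)) (v : Fin r → Fin N → ℕ) (m : Fin (P+1) → ℕ)
    (hm : ∀ k, 1 ≤ m k) (θ : Fin (r+1) → ℝ) (K α0 αx : ℝ)
    (l : ℕ) (j : Fin r) :
    yo (Ax g v m) θ (bx K α0 αx) l j.succ - yo (Ax g v m) θ (bx K α0 αx) l 0 =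
      dl l * (α0 - αx * ∑ i, (v j i : ℝ)) - dl l ^ 2 * (θ j.succ - θ 0) := by
  rw [yo_x]
  unfold yW
  rw [sum_apps g v m hm, sum_apps0]
  ring

/-- for large `l` the boundary terms vanish -/
lemma ev_diffx (g : Fin r → Fin (P+1)) (v : Fin r → Fin N → ℕ) (m : Fin (P+1) → ℕ)
    (hm : ∀ k, 1 ≤ m k) (θ : Fin (r+1) → ℝ) (K α0 αx : ℝ)
    (hα : ∀ j, αx * ∑ i, (v j i : ℝ) < α0) :
    ∀ᶠ l in atTop, ∀ j : Fin r,
      dl l ^ 4 < yo (Ax g v m) θ (bx K α0 αx) l j.succ - yo (Ax g v m) θ (bx K α0 αx) l 0 := by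
  rw [eventually_all]
  intro j
  have h1 : Tendsto (fun l => dl l ^ 3 + dl l * (θ j.succ - θ 0)) atTop
      (𝓝 (0 ^ 3 + 0 * (θ j.succ - θ 0))) :=
    (dl_tendsto.pow 3).add (dl_tendsto.mul_const _)
  have h2 : (0:ℝ) ^ 3 + 0 * (θ j.succ - θ 0) < α0 - αx * ∑ i, (v j i : ℝ) := by
    have := hα j
    simp only [ne_eq, OfNat.ofNat_ne_zero, not_false_eq_true, zero_pow, zero_mul, add_zero]
    linarith
  filter_upwards [h1.eventually (gt_mem_nhds h2)] with l hl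
  rw [yo_diffx g v m hm]
  have hd := dl_pos l
  have h3 := mul_lt_mul_of_pos_left hl hd
  have h4 : dl l * (dl l ^ 3 + dl l * (θ j.succ - θ 0)) =
      dl l ^ 4 + dl l ^ 2 * (θ j.succ - θ 0) := by ring
  rw [h4] at h3
  linarith

/-! ### The evaluation -/

theorem evX (h5 : TaskLimX) (g : Fin r → Fin (P+1)) (v : Fin r → Fin N → ℕ)
    (m : Fin (P+1) → ℕ) (hm : ∀ k, 1 ≤ m k) (θ : Fin r → ℝ) (θ0 : ℝ)
    (hθ0 : LinearIndependent ℚ (Fin.cons θ0 θ : Fin (r+1) → ℝ)) (hg : ∀ k, ∃ j, g j = k)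
    (R : SmoothFan N) (hR : PrincipalG g v R) (η : Fin (P+1) → ℝ) (hη0 : ∀ k, 0 < η k)
    (α0 αx : ℝ) (hα0 : 0 < α0) (hαx : αx ≠ 0) (hα : ∀ j, αx * ∑ i, (v j i : ℝ) < α0)
    (kW : MvPolynomial (Fin (r+1)) ℂ) (bJ : Finset (Fin r) → Polynomial ℂ)
    (fJ : Finset (Fin r) → MvPolynomial (Fin (r+1)) ℂ)
    (hf : ∀ J, fJ J ∈ Ideal.span (Set.range (tbx g m η)))
    (hsum : kW = ∑ J ∈ Finset.univ.filter (fun J : Finset (Fin r) => ∀ k, ∃ j ∈ J, g j = k),
      C ((idxC g v J : ℂ) ^ 2) * (kkJ J * (Polynomial.aeval (Sg r) (bJ J) + fJ J)))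
    (hkill : ∃ K0 s0 : ℝ, 0 ≤ K0 ∧ 0 < s0 ∧ ∀ ε > 0, ∀ ϑ > 0, ε * K0 < ϑ →
      ∀ δ > 0, (ε + ϑ) * K0 < δ → ∀ T : ℝ, (ε + δ + ϑ) * K0 < T → ∀ s : ℝ, s0 ≤ s →
      Φ (ph ε) ∅ (lmw s (wh (N := N) η)) (av (vx g v m))
        (yW (vx g v m) (Fin.cons θ0 θ) (ax α0 αx) T δ ϑ) kW = 0) :
    ∃ (Q : Polynomial ℂ) (s0 : ℝ), 0 < s0 ∧ ∀ s : ℝ, s0 ≤ s →
      ∑ J ∈ Finset.univ.filter (fun J : Finset (Fin r) => ∀ k, ∃ j ∈ J, g j = k),
        (-1) ^ J.card * (idxC g v J : ℂ) ^ 2 * (bJ J).eval (s : ℂ) *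
          limX g v θ R m η αx J s = Q.eval (s : ℂ) := by
  classical
  obtain ⟨K0, s0, hK0, hs0, hkill⟩ := hkill
  set θh : Fin (r+1) → ℝ := Fin.cons θ0 θ with hθh
  set K : ℝ := 3 * K0 + 1 with hK
  have hKpos : 0 < K := by positivity
  set JJ := Finset.univ.filter (fun J : Finset (Fin r) => ∀ k, ∃ j ∈ J, g j = k) with hJJ
  have hev1 : ∀ᶠ l in atTop, dl l ^ 2 * K0 < 1 := by
    have a1 : Tendsto (fun l => dl l ^ 2 * K0) atTop (𝓝 (0 ^ 2 * K0)) :=
      (dl_tendsto.pow 2).mul_const K0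
    have a3 : (0:ℝ) ^ 2 * K0 = 0 := by ring
    rw [a3] at a1
    exact a1.eventually (gt_mem_nhds one_pos)
  have hev3 : ∀ᶠ l in atTop, (dl l ^ 3 + dl l) * K0 < 1 := by
    have a1 : Tendsto (fun l => (dl l ^ 3 + dl l) * K0) atTop (𝓝 ((0 ^ 3 + 0) * K0)) :=
      ((dl_tendsto.pow 3).add dl_tendsto).mul_const K0
    have a3 : ((0:ℝ) ^ 3 + 0) * K0 = 0 := by ring
    rw [a3] at a1
    exact a1.eventually (gt_mem_nhds one_pos)
  have hev2 := ev_diffx g v m hm θh K α0 αx hα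
  set Dg : ℕ := ∑ J ∈ JJ, (bJ J).natDegree with hDg
  set Pm : ℕ → Polynomial ℂ := fun l => ∑ J ∈ JJ, Polynomial.C ((idxC g v J : ℂ) ^ 2) *
    PeT (vx g v m) (wh η) (yo (Ax g v m) θh (bx K α0 αx) l) (dl l ^ 4) (kkJ J) (bJ J) with hPm
  obtain ⟨Q, hQ⟩ := limit_poly' Pm Dg (by
      intro l
      refine Polynomial.natDegree_sum_le_of_forall_le _ _ fun J hJ => ?_
      refine (Polynomial.natDegree_C_mul_le _ _).trans ((PeT_natDegree _ _ _ _ _ _).trans ?_)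
      exact Finset.single_le_sum (f := fun J => (bJ J).natDegree) (fun _ _ => Nat.zero_le _) hJ)
    (fun s => ∑ J ∈ JJ, (idxC g v J : ℂ) ^ 2 * ((bJ J).eval (s : ℂ) *
      ((-1) ^ (J.card + 1) * limX g v θ R m η αx J s))) s0 (by
      intro s hs
      have hs' : 0 < s := hs0.trans_le hs
      have hlim : Tendsto (fun l : ℕ => ∑ J ∈ JJ, (idxC g v J : ℂ) ^ 2 *
          ((bJ J).eval (s : ℂ) * ((-1) ^ (J.card + 1) *
          ∫ x, integA (Ax g v m) θh (lmw s (wh η)) (bx K α0 αx) (Jh J) l x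
            ∂(Measure.pi (ms (∅ : Finset (Fin (P+1+N+1)))))))) atTop
          (𝓝 (∑ J ∈ JJ, (idxC g v J : ℂ) ^ 2 * ((bJ J).eval (s : ℂ) *
            ((-1) ^ (J.card + 1) * limX g v θ R m η αx J s)))) := by
        refine tendsto_finsetSum _ fun J hJ => ?_
        by_cases hidx : idxC g v J = 0
        · rw [hidx]
          simp only [Nat.cast_zero, ne_eq, OfNat.ofNat_ne_zero, not_false_eq_true, zero_pow,
            zero_mul]
          exact tendsto_const_nhds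
        · refine Tendsto.const_mul _ (Tendsto.const_mul _ (Tendsto.const_mul _ ?_))
          exact h5 g v θ θ0 hθ0 hg R hR m hm η hη0 J hidx (Finset.mem_filter.1 hJ).2 K hKpos α0
            hα0 αx hαx s hs'
      refine hlim.congr' ?_
      filter_upwards [hev1, hev2, hev3] with l hl hy hl3
      set y0 := yo (Ax g v m) θh (bx K α0 αx) l with hy0
      have hd := dl_pos l
      have hd1 := dl_le l
      have hd2 : 0 < dl l ^ 2 := pow_pos hd 2
      have hd4 : 0 < dl l ^ 4 := pow_pos hd 4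
      have hd2' : dl l ^ 2 ≤ dl l := by nlinarith
      have hd4' : dl l ^ 4 ≤ dl l := by
        have : dl l ^ 4 = dl l ^ 2 * dl l ^ 2 := by ring
        rw [this]
        nlinarith
      have hwp := wh_pos (N := N) η hη0
      have lpos := lmw_pos s hs' _ hwp
      -- the kernel
      have e1 := hkill (dl l ^ 4) hd4 (dl l ^ 2) hd2 (by
          have h5 : dl l ^ 4 * K0 = dl l ^ 2 * (dl l ^ 2 * K0) := by ring
          rw [h5]
          nlinarith) (dl l) hd (by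
          have h5 : (dl l ^ 4 + dl l ^ 2) * K0 = dl l * ((dl l ^ 3 + dl l) * K0) := by ring
          rw [h5]
          nlinarith) (K * dl l) (by
          rw [hK]
          have h3 : (dl l ^ 4 + dl l + dl l ^ 2) * K0 ≤ (dl l + dl l + dl l) * K0 :=
            mul_le_mul_of_nonneg_right (by linarith) hK0
          nlinarith) s hs
      rw [← yo_x g v m θh K α0 αx l, ← hy0] at e1
      rw [hsum, Φ_sum (ph_dseq _ hd4) _ _ lpos] at e1
      -- one J
      have e3 : ∀ J ∈ JJ, Φ (ph (dl l ^ 4)) ∅ (lmw s (wh η)) (av (vx g v m)) y0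
          (C ((idxC g v J : ℂ) ^ 2) *
            (kkJ J * (Polynomial.aeval (Sg r) (bJ J) + fJ J))) =
          (idxC g v J : ℂ) ^ 2 * ((bJ J).eval (s : ℂ) * ((-1) ^ (J.card + 1) *
            ∫ x, integA (Ax g v m) θh (lmw s (wh η)) (bx K α0 αx) (Jh J) l x
              ∂(Measure.pi (ms (∅ : Finset (Fin (P+1+N+1))))))) -
          (Polynomial.C ((idxC g v J : ℂ) ^ 2) *
            PeT (vx g v m) (wh η) y0 (dl l ^ 4) (kkJ J) (bJ J)).eval (s : ℂ) := by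
        intro J hJm
        rw [Φ_C_mul, Polynomial.eval_mul, Polynomial.eval_C, ← mul_sub]
        congr 1
        have e4 := Φ_XJA (Ax g v m) θh (lmw s (wh η)) (bx K α0 αx) l (Jh J)
        rw [aR_Ax, ← kkJ_eq, card_Jh, ← hy0] at e4
        rw [← e4, PeT_eval (vx g v m) (wh η) hwp y0 (dl l ^ 4) (kkJ J) (bJ J) s hd4 hs',
          add_sub_cancel_right]
        have e5 : kkJ J * (Polynomial.aeval (Sg r) (bJ J) + fJ J) =
            kkJ J * Polynomial.aeval (Sg r) (bJ J) + kkJ J * (1 * fJ J) := by ring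
        rw [e5, Φ_add (ph_dseq _ hd4) _ _ lpos,
          Φ_idealx g v m hm η hη0 (dl l ^ 4) hd4 s hs' y0 hy J (Finset.mem_filter.1 hJm).2 _
            (hf J) 1, add_zero]
      rw [Finset.sum_congr rfl e3, Finset.sum_sub_distrib, sub_eq_zero] at e1
      rw [e1, hPm, Polynomial.eval_finsetSum])
  refine ⟨-Q, s0, hs0, fun s hs => ?_⟩
  rw [Polynomial.eval_neg, ← hQ s hs, ← Finset.sum_neg_distrib]
  refine Finset.sum_congr rfl fun J _ => ?_
  rw [pow_succ]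
  ring

end Pool.Agent.W423.NX
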